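import Pool.Agent.R793.PR.Pz

/-!
The core: a uniform power of an invariant supported on few copies is a polynomial in
polarizations.
-/

set_option autoImplicit false

namespace Pool.Agent.R793.PR

open MvPolynomial

section Core

variable {k : Type*} [Field k] (p : ℕ) [hp : Fact p.Prime] [CharP k p] {G : Type*} [Group G]
  {σ : Type*} [Fintype σ] (a : G →* Function.End σ)

theorem core {c M D : ℕ} (hD : D < p ^ c) {α : Fin M → MvPolynomial σ k}
    (hα : ∀ i, α i ∈ Inv (rn k a) ⊤)
    (hrel : ∀ s, (X s : MvPolynomial σ k) ^ (p ^ c) ^ M =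
      ∑ i : Fin M, α i * X s ^ (p ^ c) ^ (i : ℕ)) {n₀ n : ℕ} (S : Finset (Fin n))
    (κ : Fin n → Fin n₀) (hκ : ∀ i ∈ S, ∀ j ∈ S, κ i = κ j → i = j)
    (f : MvPolynomial (σ × Fin n) k)
    (hf : f ∈ Inv (rn k (cp a (Fin n))) ⊤) (hd : f.totalDegree ≤ D)
    (hS : ∀ v ∈ f.vars, v.2 ∈ S) :
    f ^ (p ^ c) ^ (n₀ * M) ∈ PP k n (Inv (rn k a) ⊤ : Set (MvPolynomial σ k)) := by
  classical
  obtain ⟨Q, hQ⟩ : ∃ Q, Q = p ^ c := ⟨_, rfl⟩
  rw [← hQ] at hD hrel
  have hw : ∀ v : Fin n₀, ∃ γ : Fin M → MvPolynomial σ k, (∀ i, γ i ∈ Inv (rn k a) ⊤) ∧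
      ∀ s, (X s : MvPolynomial σ k) ^ Q ^ (n₀ * M) =
        ∑ i : Fin M, γ i * X s ^ Q ^ ((finProdFinEquiv (v, i) : Fin (n₀ * M)) : ℕ) := by
    intro v
    have hle : M * v ≤ n₀ * M := by
      rw [mul_comm n₀]
      exact Nat.mul_le_mul_left _ v.2.le
    rw [hQ] at hrel
    obtain ⟨γ, h1, h2⟩ := window k a p c hα hrel (M * v) (n₀ * M) hle
    refine ⟨γ, h1, fun s => ?_⟩
    rw [hQ, h2]
    refine Finset.sum_congr rfl fun i _ => ?_
    have h3 : ((finProdFinEquiv (v, i) : Fin (n₀ * M)) : ℕ) = M * v + i := by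
      rw [finProdFinEquiv_apply_val]
      exact add_comm _ _
    rw [h3]
  choose γ hγ hγ2 using hw
  let fr : k →+* k := iterateFrobenius k p (c * (n₀ * M))
  have hfr : ∀ x : k, fr x = x ^ Q ^ (n₀ * M) := by
    intro x
    rw [hQ, ← pow_mul]
    exact iterateFrobenius_def _ _ _
  let E : Fin n₀ → Fin M → Fin (n₀ * M) := fun v i => finProdFinEquiv (v, i)
  let y : σ × Fin n → MvPolynomial σ k := fun v => ∑ i, X v.1 ^ Q ^ (E (κ v.2) i : ℕ)
  let Y : σ × Fin n → MvPolynomial (Fin (n₀ * M) × Fin n) (MvPolynomial (σ × Fin n) k) :=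
    fun v => ∑ i, ∑ j' : Fin n, X (E (κ v.2) i, j') * C (X (v.1, j') ^ Q ^ (E (κ v.2) i : ℕ))
  let h : MvPolynomial σ k := eval₂Hom ((C : k →+* MvPolynomial σ k).comp fr) y f
  let Φ : MvPolynomial (Fin (n₀ * M) × Fin n) (MvPolynomial (σ × Fin n) k) :=
    eval₂Hom (((C : MvPolynomial (σ × Fin n) k →+* _).comp
      (C : k →+* MvPolynomial (σ × Fin n) k)).comp fr) Y f
  have h_inv : h ∈ Inv (rn k a) ⊤ := by
    intro g _
    have h1 : (rn k a g).comp (eval₂Hom ((C : k →+* MvPolynomial σ k).comp fr) y) =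
        (eval₂Hom ((C : k →+* MvPolynomial σ k).comp fr) y).comp (rn k (cp a (Fin n)) g) := by
      refine MvPolynomial.ringHom_ext (fun r => ?_) (fun v => ?_)
      · rw [RingHom.comp_apply, RingHom.comp_apply, rn_C, eval₂Hom_C]
        exact rn_C k a g _
      · rw [RingHom.comp_apply, RingHom.comp_apply, rn_X, eval₂Hom_X', eval₂Hom_X']
        change rn k a g (∑ i, X v.1 ^ Q ^ (E (κ v.2) i : ℕ)) =
          ∑ i, X (a g v.1) ^ Q ^ (E (κ v.2) i : ℕ)
        rw [map_sum]
        refine Finset.sum_congr rfl fun i _ => ?_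
        rw [map_pow, rn_X]
    have h2 := RingHom.congr_fun h1 f
    rw [RingHom.comp_apply, RingHom.comp_apply, hf g (Subgroup.mem_top g)] at h2
    exact h2
  have h_pol : polT k n h = psi _ Q (n₀ * M) n Φ := by
    have h1 : (polT k n).toRingHom.comp (eval₂Hom ((C : k →+* MvPolynomial σ k).comp fr) y) =
        (psi _ Q (n₀ * M) n).comp (eval₂Hom (((C : MvPolynomial (σ × Fin n) k →+*
          MvPolynomial (Fin (n₀ * M) × Fin n) (MvPolynomial (σ × Fin n) k)).comp
          (C : k →+* MvPolynomial (σ × Fin n) k)).comp fr) Y) := by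
      refine MvPolynomial.ringHom_ext (fun r => ?_) (fun v => ?_)
      · rw [RingHom.comp_apply, RingHom.comp_apply, eval₂Hom_C, eval₂Hom_C]
        change polT k n (C (fr r)) = psi _ Q (n₀ * M) n (C (C (fr r)))
        rw [polT_C]
        unfold psi
        rw [eval₂Hom_C]
      · rw [RingHom.comp_apply, RingHom.comp_apply, eval₂Hom_X', eval₂Hom_X']
        change polT k n (∑ i, X v.1 ^ Q ^ (E (κ v.2) i : ℕ)) =
          psi _ Q (n₀ * M) n (∑ i, ∑ j' : Fin n,
            X (E (κ v.2) i, j') * C (X (v.1, j') ^ Q ^ (E (κ v.2) i : ℕ)))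
        rw [map_sum, map_sum]
        refine Finset.sum_congr rfl fun i _ => ?_
        rw [map_pow, polT_X, map_sum]
        have h2 : ∀ (e : ℕ) (F : Fin n → MvPolynomial (Fin n) (MvPolynomial (σ × Fin n) k)),
            (∑ j', F j') ^ Q ^ e = ∑ j', (F j') ^ Q ^ e := by
          intro e F
          rw [hQ, ← pow_mul, sum_pow_char_pow]
        rw [h2]
        refine Finset.sum_congr rfl fun j' _ => ?_
        unfold psi
        rw [map_mul, eval₂Hom_X', eval₂Hom_C, mul_pow, C_pow]
    exact RingHom.congr_fun h1 f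
  have h_deg : Φ.totalDegree ≤ D := by
    refine (degF (MvPolynomial (σ × Fin n) k) (Fin (n₀ * M) × Fin n)).eval₂_mem _ _ ?_ ?_ f hd
    · intro r
      exact (totalDegree_C _).le
    · intro v
      refine sum_mem fun i _ => sum_mem fun j' _ => ?_
      change (X (E (κ v.2) i, j') * C (X (v.1, j') ^ Q ^ (E (κ v.2) i : ℕ)) :
        MvPolynomial (Fin (n₀ * M) × Fin n) (MvPolynomial (σ × Fin n) k)).totalDegree ≤ 1
      refine (totalDegree_mul _ _).trans ?_
      rw [totalDegree_C, add_zero]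
      exact (totalDegree_X _).le
  have h_coeff : ∀ m, coeff m Φ ∈
      (PP k n (Inv (rn k a) ⊤ : Set (MvPolynomial σ k))).toSubring := by
    intro m
    by_cases hm : m ∈ Φ.support
    · rw [← coeff_psi (Q := Q) Φ (lt_of_le_of_lt h_deg hD) hm, ← h_pol]
      exact coeff_mem_PP h_inv _
    · rw [notMem_support_iff.mp hm]
      exact zero_mem _
  let z : Fin (n₀ * M) × Fin n → MvPolynomial (σ × Fin n) k := fun u =>
    if u.2 ∈ S ∧ κ u.2 = (finProdFinEquiv.symm u.1).1 then
      io k u.2 (γ (finProdFinEquiv.symm u.1).1 (finProdFinEquiv.symm u.1).2) else 0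
  have h_ev : eval₂Hom (RingHom.id (MvPolynomial (σ × Fin n) k)) z Φ ∈
      (PP k n (Inv (rn k a) ⊤ : Set (MvPolynomial σ k))).toSubring := by
    refine eval₂_mem _ _ _ _ (fun r hr => hr) (fun u => ?_) Φ h_coeff
    change (if _ then _ else _) ∈ _
    split_ifs
    · exact io_mem_PP (hγ _ _) _
    · exact zero_mem _
  have h_eq : eval₂Hom (RingHom.id (MvPolynomial (σ × Fin n) k)) z Φ = f ^ Q ^ (n₀ * M) := by
    have h1 : ((eval₂Hom (RingHom.id (MvPolynomial (σ × Fin n) k)) z).comp
        (eval₂Hom (((C : MvPolynomial (σ × Fin n) k →+*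
          MvPolynomial (Fin (n₀ * M) × Fin n) (MvPolynomial (σ × Fin n) k)).comp
          (C : k →+* MvPolynomial (σ × Fin n) k)).comp fr) Y)) f =
        (iterateFrobenius (MvPolynomial (σ × Fin n) k) p (c * (n₀ * M))) f := by
      refine hom_congr_vars ?_ ?_ rfl
      · refine RingHom.ext fun r => ?_
        rw [RingHom.comp_apply, RingHom.comp_apply, RingHom.comp_apply, eval₂Hom_C,
          iterateFrobenius_def]
        change eval₂Hom _ _ (C (C (fr r))) = _
        rw [eval₂Hom_C, hfr, ← C_pow, pow_mul p c, hQ]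
        rfl
      · rintro ⟨s, j⟩ hv _
        have hj : j ∈ S := hS _ hv
        rw [RingHom.comp_apply, eval₂Hom_X', iterateFrobenius_def, pow_mul, ← hQ]
        change eval₂Hom _ _ (∑ i, ∑ j' : Fin n,
          X (E (κ j) i, j') * C (X (s, j') ^ Q ^ (E (κ j) i : ℕ))) = _
        have h2 : (X (s, j) : MvPolynomial (σ × Fin n) k) ^ Q ^ (n₀ * M) =
            ∑ i, io k j (γ (κ j) i) * X (s, j) ^ Q ^ (E (κ j) i : ℕ) := by
          have h3 : io k j (X s : MvPolynomial σ k) = X (s, j) := rename_X _ _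
          rw [← h3, ← map_pow, hγ2 (κ j) s, map_sum]
          refine Finset.sum_congr rfl fun i _ => ?_
          rw [map_mul, map_pow, h3]
        rw [h2, map_sum]
        refine Finset.sum_congr rfl fun i _ => ?_
        rw [map_sum, Finset.sum_eq_single j]
        · rw [map_mul, eval₂Hom_X', eval₂Hom_C]
          change (if j ∈ S ∧ κ j = (finProdFinEquiv.symm (E (κ j) i)).1 then
            io k j (γ (finProdFinEquiv.symm (E (κ j) i)).1 (finProdFinEquiv.symm (E (κ j) i)).2)
            else 0) * _ = _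
          have h4 : finProdFinEquiv.symm (E (κ j) i) = (κ j, i) :=
            finProdFinEquiv.symm_apply_apply _
          rw [h4, if_pos ⟨hj, rfl⟩]
          rfl
        · intro j' _ hne
          rw [map_mul, eval₂Hom_X']
          change (if j' ∈ S ∧ κ j' = (finProdFinEquiv.symm (E (κ j) i)).1 then
            io k j' (γ (finProdFinEquiv.symm (E (κ j) i)).1
              (finProdFinEquiv.symm (E (κ j) i)).2) else 0) * _ = _
          have h4 : finProdFinEquiv.symm (E (κ j) i) = (κ j, i) :=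
            finProdFinEquiv.symm_apply_apply _
          rw [h4, if_neg, zero_mul]
          rintro ⟨h5, h6⟩
          exact hne (hκ j' h5 j hj h6)
        · intro h5
          exact absurd (Finset.mem_univ _) h5
    rw [RingHom.comp_apply, iterateFrobenius_def, pow_mul, ← hQ] at h1
    exact h1
  rw [← hQ, ← h_eq]
  exact h_ev

end Core

end Pool.Agent.R793.PR
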