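import Mathlib

/-!
Finite groups acting on commutative rings: the conversion identity.
-/

set_option autoImplicit false

open Polynomial

namespace Pool.Agent.R793.PR

section Basic

variable {G : Type*} [Group G] {R : Type*} [CommRing R] (ρ : G →* (R →+* R)) (H : Subgroup G)

/-- The invariants of a subgroup. -/
def Inv : Subring R where
  carrier := {r | ∀ h ∈ H, ρ h r = r}
  mul_mem' ha hb h hh := by rw [map_mul, ha h hh, hb h hh]
  one_mem' h _ := map_one _
  add_mem' ha hb h hh := by rw [map_add, ha h hh, hb h hh]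
  zero_mem' h _ := map_zero _
  neg_mem' ha h hh := by rw [map_neg, ha h hh]

theorem mem_Inv {r : R} : r ∈ Inv ρ H ↔ ∀ h ∈ H, ρ h r = r := Iff.rfl

theorem rho_mul (g g' : G) (r : R) : ρ (g * g') r = ρ g (ρ g' r) := by
  rw [map_mul]; rfl

theorem rho_one (r : R) : ρ 1 r = r := by
  rw [map_one]; rfl

/-- The conjugate of an invariant of `H` attached to a coset. -/
noncomputable def cs (b : R) (ω : G ⧸ H) : R := ρ ω.out b

variable {H}

theorem cs_mk {b : R} (hb : b ∈ Inv ρ H) (g : G) : cs ρ H b (g : G ⧸ H) = ρ g b := by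
  unfold cs
  have h1 : (((g : G ⧸ H).out : G) : G ⧸ H) = (g : G ⧸ H) := Quotient.out_eq _
  rw [QuotientGroup.eq] at h1
  have h2 : ρ ((g : G ⧸ H).out⁻¹ * g) b = b := hb _ h1
  have h3 : g = (g : G ⧸ H).out * ((g : G ⧸ H).out⁻¹ * g) := by group
  rw [h3, rho_mul, h2, ← h3]

theorem cs_smul {b : R} (hb : b ∈ Inv ρ H) (g : G) (ω : G ⧸ H) :
    ρ g (cs ρ H b ω) = cs ρ H b (g • ω) := by
  induction ω using QuotientGroup.induction_on with
  | H a =>
    rw [cs_mk ρ hb]
    have h : g • (a : G ⧸ H) = ((g * a : G) : G ⧸ H) := rfl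
    rw [h, cs_mk ρ hb, rho_mul]

theorem cs_one {b : R} (hb : b ∈ Inv ρ H) : cs ρ H b ((1 : G) : G ⧸ H) = b := by
  rw [cs_mk ρ hb, rho_one]

end Basic

section Fin

variable {G : Type*} [Group G] [Finite G] {R : Type*} [CommRing R] (ρ : G →* (R →+* R))
  (H : Subgroup G)

open Classical in
noncomputable instance : Fintype (G ⧸ H) := Fintype.ofFinite _

open Classical in
/-- The product of the differences. -/
noncomputable def theta (b : R) : R :=
  ∏ ω ∈ Finset.univ.erase ((1 : G) : G ⧸ H), (b - cs ρ H b ω)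

open Classical in
/-- The interpolation polynomial. -/
noncomputable def interp (b h : R) : R[X] :=
  ∑ ω₀ : G ⧸ H, C (cs ρ H h ω₀) * ∏ ω ∈ Finset.univ.erase ω₀, (X - C (cs ρ H b ω))

variable {H}

theorem eval_interp {b h : R} (hb : b ∈ Inv ρ H) (hh : h ∈ Inv ρ H) :
    (interp ρ H b h).eval b = h * theta ρ H b := by
  classical
  unfold interp theta
  rw [Polynomial.eval_finset_sum, Finset.sum_eq_single ((1 : G) : G ⧸ H)]
  · rw [Polynomial.eval_mul, Polynomial.eval_C, cs_one ρ hh, Polynomial.eval_prod]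
    congr 1
    refine Finset.prod_congr rfl fun ω _ => ?_
    rw [Polynomial.eval_sub, Polynomial.eval_X, Polynomial.eval_C]
  · intro ω₀ _ hω
    rw [Polynomial.eval_mul, Polynomial.eval_prod]
    rw [Finset.prod_eq_zero (i := ((1 : G) : G ⧸ H)), mul_zero]
    · exact Finset.mem_erase.mpr ⟨hω.symm, Finset.mem_univ _⟩
    · rw [Polynomial.eval_sub, Polynomial.eval_X, Polynomial.eval_C, cs_one ρ hb, sub_self]
  · intro h
    exact absurd (Finset.mem_univ _) h

theorem map_interp {b h : R} (hb : b ∈ Inv ρ H) (hh : h ∈ Inv ρ H) (g : G) :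
    (interp ρ H b h).map (ρ g) = interp ρ H b h := by
  classical
  unfold interp
  rw [Polynomial.map_sum]
  refine Fintype.sum_equiv (MulAction.toPerm g) _ _ fun ω₀ => ?_
  rw [Polynomial.map_mul, Polynomial.map_C, cs_smul ρ hh, Polynomial.map_prod]
  congr 1
  refine Finset.prod_bij (fun ω _ => g • ω) ?_ ?_ ?_ ?_
  · intro ω hω
    rw [Finset.mem_erase] at hω ⊢
    refine ⟨fun h => hω.1 ?_, Finset.mem_univ _⟩
    exact MulAction.injective g h
  · intro a _ b _ h
    exact MulAction.injective g h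
  · intro ω hω
    refine ⟨g⁻¹ • ω, ?_, smul_inv_smul g ω⟩
    rw [Finset.mem_erase] at hω ⊢
    refine ⟨fun h => hω.1 ?_, Finset.mem_univ _⟩
    change ω = g • ω₀
    rw [← h, smul_inv_smul]
  · intro ω _
    rw [Polynomial.map_sub, Polynomial.map_X, Polynomial.map_C, cs_smul ρ hb]

theorem theta_mem {b : R} (hb : b ∈ Inv ρ H) : theta ρ H b ∈ Inv ρ H := by
  classical
  intro g hg
  unfold theta
  rw [map_prod]
  have h1 : g • (((1 : G) : G ⧸ H)) = ((1 : G) : G ⧸ H) := by
    have : g • (((1 : G) : G ⧸ H)) = ((g * 1 : G) : G ⧸ H) := rfl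
    rw [this, mul_one, eq_comm, QuotientGroup.eq, inv_one, one_mul]
    exact hg
  refine Finset.prod_bij (fun ω _ => g • ω) ?_ ?_ ?_ ?_
  · intro ω hω
    rw [Finset.mem_erase] at hω ⊢
    refine ⟨fun h => hω.1 ?_, Finset.mem_univ _⟩
    exact MulAction.injective g (h.trans h1.symm)
  · intro a _ b _ h
    exact MulAction.injective g h
  · intro ω hω
    refine ⟨g⁻¹ • ω, ?_, smul_inv_smul g ω⟩
    rw [Finset.mem_erase] at hω ⊢
    refine ⟨fun h => hω.1 ?_, Finset.mem_univ _⟩
    rw [← h1, ← h, smul_inv_smul]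
  · intro ω _
    rw [map_sub, cs_smul ρ hb, hb g hg]

/-- A multiplicative filtration. -/
structure Fil (R : Type*) [CommRing R] where
  /-- The steps. -/
  F : ℕ → AddSubgroup R
  mono : ∀ {m n : ℕ}, m ≤ n → F m ≤ F n
  mul : ∀ {m n : ℕ} {a b : R}, a ∈ F m → b ∈ F n → a * b ∈ F (m + n)
  one : (1 : R) ∈ F 0

theorem Fil.coeff_prod (F : Fil R) {ι : Type*} (s : Finset ι) (a : ι → R) (n : ℕ)
    (ha : ∀ i ∈ s, a i ∈ F.F n) (j : ℕ) :
    (∏ i ∈ s, (X - C (a i))).coeff j ∈ F.F (s.card * n) := by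
  classical
  induction s using Finset.induction_on generalizing j with
  | empty =>
    rw [Finset.prod_empty, Polynomial.coeff_one]
    split_ifs
    · exact F.mono (Nat.zero_le _) F.one
    · exact zero_mem _
  | insert i s hi ih =>
    rw [Finset.prod_insert hi, sub_mul, Polynomial.coeff_sub, Finset.card_insert_of_notMem hi,
      add_mul, one_mul]
    have ih' := ih (fun i hi => ha i (Finset.mem_insert_of_mem hi))
    refine sub_mem ?_ ?_
    · cases j with
      | zero =>
        rw [Polynomial.coeff_X_mul_zero]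
        exact zero_mem _
      | succ j =>
        rw [Polynomial.coeff_X_mul]
        exact F.mono (Nat.le_add_right _ _) (ih' j)
    · rw [Polynomial.coeff_C_mul, add_comm]
      exact F.mul (ha i (Finset.mem_insert_self _ _)) (ih' j)

theorem Fil.coeff_interp (F : Fil R) (hF : ∀ (g : G) (n : ℕ) (r : R), r ∈ F.F n → ρ g r ∈ F.F n)
    {b h : R} {m n : ℕ} (hb : b ∈ F.F n) (hh : h ∈ F.F m) (j : ℕ) :
    (interp ρ H b h).coeff j ∈ F.F (m + Nat.card G * n) := by
  classical
  unfold interp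
  rw [Polynomial.finset_sum_coeff]
  refine sum_mem fun ω₀ _ => ?_
  rw [Polynomial.coeff_C_mul]
  refine F.mul (hF _ _ _ hh) ?_
  refine F.mono ?_ (F.coeff_prod _ _ n (fun ω _ => hF _ _ _ hb) j)
  refine Nat.mul_le_mul_right _ ?_
  refine (Finset.card_le_univ _).trans ?_
  rw [← Nat.card_eq_fintype_card]
  exact Nat.card_le_card_of_surjective (fun g : G => (g : G ⧸ H)) Quotient.mk_surjective

/-- The conversion identity. -/
theorem conv {b h : R} (hb : b ∈ Inv ρ H) (hh : h ∈ Inv ρ H) :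
    ∃ (N : ℕ) (c : ℕ → R), (∀ j, c j ∈ Inv ρ ⊤) ∧
      (h * theta ρ H b = ∑ j ∈ Finset.range N, c j * b ^ j) ∧
      (∀ (F : Fil R) (m n : ℕ), (∀ (g : G) (n : ℕ) (r : R), r ∈ F.F n → ρ g r ∈ F.F n) →
        b ∈ F.F n → h ∈ F.F m → ∀ j, c j ∈ F.F (m + Nat.card G * n)) ∧ N ≤ Nat.card G := by
  classical
  refine ⟨Fintype.card (G ⧸ H), fun j => (interp ρ H b h).coeff j, ?_, ?_, ?_, ?_⟩
  · intro j g _
    rw [← Polynomial.coeff_map, map_interp ρ hb hh]
  · rw [← eval_interp ρ hb hh]
    apply Polynomial.eval_eq_sum_range'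
    unfold interp
    have hpos : 0 < Fintype.card (G ⧸ H) := Fintype.card_pos
    refine lt_of_le_of_lt (Polynomial.natDegree_sum_le_of_forall_le (n := Fintype.card (G ⧸ H) - 1)
      _ _ fun ω₀ _ => ?_) (by omega)
    refine (Polynomial.natDegree_C_mul_le _ _).trans ?_
    refine (Polynomial.natDegree_prod_le _ _).trans ?_
    refine (Finset.sum_le_card_nsmul _ _ 1 fun ω _ => ?_).trans ?_
    · exact Polynomial.natDegree_X_sub_C_le _
    · rw [Finset.card_erase_of_mem (Finset.mem_univ _), smul_eq_mul, mul_one, Finset.card_univ]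
  · intro F m n hF hb hh j
    exact F.coeff_interp ρ hF hb hh j
  · rw [← Nat.card_eq_fintype_card]
    exact Nat.card_le_card_of_surjective (fun g : G => (g : G ⧸ H)) Quotient.mk_surjective

end Fin

end Pool.Agent.R793.PR
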