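import Pool.Agent.R793.PR.Cos

/-!
A power of every element is a sum of elements of the conversion ideals.
-/

set_option autoImplicit false

open Polynomial

namespace Pool.Agent.R793.PR

section Pol

variable {G : Type*} [Group G] {R : Type*} [CommRing R] (ρ : G →* (R →+* R))

/-- The coefficientwise action on polynomials. -/
noncomputable def pol : G →* (R[X] →+* R[X]) where
  toFun g := Polynomial.mapRingHom (ρ g)
  map_one' := by
    rw [map_one]
    exact Polynomial.mapRingHom_id
  map_mul' g h := by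
    rw [map_mul]
    exact (Polynomial.mapRingHom_comp _ _).symm

theorem pol_apply (g : G) (f : R[X]) : pol ρ g f = f.map (ρ g) := rfl

theorem coeff_mem_Inv {H : Subgroup G} {f : R[X]} (hf : f ∈ Inv (pol ρ) H) (n : ℕ) :
    f.coeff n ∈ Inv ρ H := by
  intro h hh
  have h1 := congrArg (fun q => q.coeff n) (hf h hh)
  rw [pol_apply] at h1
  simpa using h1

/-- The inertia group of an ideal. -/
def T (I : Ideal R) : Subgroup G where
  carrier := {g | ∀ r, ρ g r - r ∈ I}
  mul_mem' {a b} ha hb r := by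
    have h : ρ (a * b) r - r = (ρ a (ρ b r) - ρ b r) + (ρ b r - r) := by
      rw [rho_mul]; ring
    rw [h]
    exact add_mem (ha _) (hb _)
  one_mem' r := by
    rw [rho_one, sub_self]
    exact zero_mem _
  inv_mem' {a} ha r := by
    have h : ρ a⁻¹ r - r = -(ρ a (ρ a⁻¹ r) - ρ a⁻¹ r) := by
      rw [← rho_mul, mul_inv_cancel, rho_one]; ring
    rw [h]
    exact neg_mem (ha _)

/-- The ideal of a subgroup. -/
def II (K : Subgroup G) : Ideal R := Ideal.span {z | ∃ h ∈ K, ∃ s : R, z = ρ h s - s}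

theorem II_le {K : Subgroup G} {I : Ideal R} : II ρ K ≤ I ↔ K ≤ T ρ I := by
  unfold II
  rw [Ideal.span_le]
  constructor
  · intro h g hg r
    exact h ⟨g, hg, r, rfl⟩
  · rintro h _ ⟨g, hg, r, rfl⟩
    exact h hg r

end Pol

section DD

variable {G : Type*} [Group G] [Finite G] {R : Type*} [CommRing R] (ρ : G →* (R →+* R))
  (H : Subgroup G)

/-- The conversion ideal. -/
def DD : AddSubgroup R :=
  AddSubgroup.closure {z | ∃ (b : R[X]) (m : ℕ) (r : R), b ∈ Inv (pol ρ) H ∧ r ∈ Inv ρ H ∧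
    z = (theta (pol ρ) H b).coeff m * r}

variable {H}

theorem DD_mul {z r : R} (hz : z ∈ DD ρ H) (hr : r ∈ Inv ρ H) : z * r ∈ DD ρ H := by
  induction hz using AddSubgroup.closure_induction with
  | mem x hx =>
    obtain ⟨b, m, r', hb, hr', rfl⟩ := hx
    rw [mul_assoc]
    exact AddSubgroup.subset_closure ⟨b, m, r' * r, hb, mul_mem hr' hr, rfl⟩
  | zero =>
    rw [zero_mul]
    exact zero_mem _
  | add x y _ _ hx hy =>
    rw [add_mul]
    exact add_mem hx hy
  | neg x _ hx =>
    rw [neg_mul]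
    exact neg_mem hx

theorem DD_le {z : R} (hz : z ∈ DD ρ H) : z ∈ Inv ρ H := by
  induction hz using AddSubgroup.closure_induction with
  | mem x hx =>
    obtain ⟨b, m, r', hb, hr', rfl⟩ := hx
    exact mul_mem (coeff_mem_Inv ρ (theta_mem (pol ρ) hb) m) hr'
  | zero => exact zero_mem _
  | add x y _ _ hx hy => exact add_mem hx hy
  | neg x _ hx => exact neg_mem hx

theorem DD_pow {z : R} (hz : z ∈ DD ρ H) {n : ℕ} (hn : 0 < n) : z ^ n ∈ DD ρ H := by
  obtain ⟨n, rfl⟩ := Nat.exists_eq_succ_of_ne_zero hn.ne'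
  rw [pow_succ']
  exact DD_mul ρ hz (pow_mem (DD_le ρ hz) n)

theorem DD_mem_of_not_le {I : Ideal R} (h : ¬ T ρ I ≤ H) {z : R} (hz : z ∈ DD ρ H) : z ∈ I := by
  classical
  obtain ⟨g, hg, hgH⟩ := Set.not_subset.mp h
  induction hz using AddSubgroup.closure_induction with
  | mem x hx =>
    obtain ⟨b, m, r', hb, hr', rfl⟩ := hx
    refine Ideal.mul_mem_right _ _ ?_
    rw [← Ideal.Quotient.eq_zero_iff_mem, ← Polynomial.coeff_map]
    unfold theta
    rw [Polynomial.map_prod, Finset.prod_eq_zero (i := ((g : G) : G ⧸ H)), Polynomial.coeff_zero]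
    · rw [Finset.mem_erase]
      refine ⟨fun h1 => hgH ?_, Finset.mem_univ _⟩
      rw [eq_comm, QuotientGroup.eq, inv_one, one_mul] at h1
      exact h1
    · rw [cs_mk (pol ρ) hb]
      ext n
      rw [Polynomial.coeff_map, Polynomial.coeff_sub, pol_apply, Polynomial.coeff_map,
        Polynomial.coeff_zero, Ideal.Quotient.eq_zero_iff_mem, ← neg_sub]
      exact neg_mem (hg _)
  | zero => exact zero_mem _
  | add x y _ _ hx hy => exact add_mem hx hy
  | neg x _ hx => exact neg_mem hx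

/-- A finite family of elements detecting inertia. -/
def Gen {m : ℕ} (x : Fin m → R) : Prop :=
  ∀ (I : Ideal R) (g : G), (∀ i, ρ g (x i) - x i ∈ I) → g ∈ T ρ I

theorem exists_sep {m : ℕ} {x : Fin m → R} (hx : Gen ρ x) {I : Ideal R} (hI : I.IsPrime)
    (h : T ρ I ≤ H) (ω : G ⧸ H) (hω : ω ≠ ((1 : G) : G ⧸ H)) :
    ∃ c ∈ Inv ρ H, c - cs ρ H c ω ∉ I := by
  classical
  by_contra hcon
  push Not at hcon
  induction ω using QuotientGroup.induction_on with
  | H g =>
  have hc : ∀ c ∈ Inv ρ H, Ideal.Quotient.mk I (ρ g c) = Ideal.Quotient.mk I c := by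
    intro c hc
    have h1 := hcon c hc
    rw [cs_mk ρ hc] at h1
    exact (Ideal.Quotient.eq.mpr h1).symm
  let r : R[X] := ∑ i : Fin m, C (x i) * X ^ (i : ℕ)
  have hr : ∀ i : Fin m, r.coeff i = x i := by
    intro i
    change (∑ i : Fin m, C (x i) * X ^ (i : ℕ)).coeff i = x i
    rw [Polynomial.finset_sum_coeff, Finset.sum_eq_single i]
    · rw [Polynomial.coeff_C_mul_X_pow, if_pos rfl]
    · intro j _ hj
      rw [Polynomial.coeff_C_mul_X_pow, if_neg]
      intro h2
      exact hj (Fin.ext h2).symm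
    · intro h2
      exact absurd (Finset.mem_univ _) h2
  letI : Fintype H := Fintype.ofFinite H
  let P : R[X][X] := ∏ h : H, (X - C (pol ρ h r))
  have hP : ∀ k, P.coeff k ∈ Inv (pol ρ) H := by
    intro k h0 hh0
    rw [← Polynomial.coeff_map]
    congr 1
    change (∏ h : H, (X - C (pol ρ h r))).map _ = ∏ h : H, (X - C (pol ρ h r))
    rw [Polynomial.map_prod]
    refine Fintype.prod_equiv (Equiv.mulLeft (⟨h0, hh0⟩ : H)) _ _ fun h => ?_
    rw [Polynomial.map_sub, Polynomial.map_X, Polynomial.map_C]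
    congr 2
    exact (rho_mul (pol ρ) h0 (h : G) r).symm
  have hPr : P.eval r = 0 := by
    change (∏ h : H, (X - C (pol ρ h r))).eval r = 0
    rw [Polynomial.eval_prod, Finset.prod_eq_zero (i := (1 : H)) (Finset.mem_univ _)]
    rw [Polynomial.eval_sub, Polynomial.eval_X, Polynomial.eval_C]
    have : pol ρ ((1 : H) : G) r = r := rho_one (pol ρ) r
    rw [this, sub_self]
  let π : R[X] →+* (R ⧸ I)[X] := Polynomial.mapRingHom (Ideal.Quotient.mk I)
  have hmap : (P.map (pol ρ g)).map π = P.map π := by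
    refine Polynomial.ext fun k => ?_
    rw [Polynomial.coeff_map, Polynomial.coeff_map, Polynomial.coeff_map]
    refine Polynomial.ext fun l => ?_
    change ((((P.coeff k).map (ρ g)).map (Ideal.Quotient.mk I))).coeff l =
      ((P.coeff k).map (Ideal.Quotient.mk I)).coeff l
    rw [Polynomial.coeff_map, Polynomial.coeff_map, Polynomial.coeff_map]
    exact hc _ (coeff_mem_Inv ρ (hP k) l)
  have hQ : ∏ h : H, (π r - π (pol ρ (g * h) r)) = 0 := by
    have h1 : (P.map (pol ρ g)) = ∏ h : H, (X - C (pol ρ (g * h) r)) := by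
      change (∏ h : H, (X - C (pol ρ h r))).map _ = _
      rw [Polynomial.map_prod]
      refine Finset.prod_congr rfl fun h _ => ?_
      rw [Polynomial.map_sub, Polynomial.map_X, Polynomial.map_C]
      congr 2
      exact (rho_mul (pol ρ) g (h : G) r).symm
    have h2 : ((P.map (pol ρ g)).map π).eval (π r) = 0 := by
      rw [hmap, Polynomial.eval_map_apply, hPr, map_zero]
    rw [Polynomial.eval_map_apply, h1, Polynomial.eval_prod, map_prod] at h2
    rw [← h2]
    refine Finset.prod_congr rfl fun h _ => ?_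
    rw [Polynomial.eval_sub, Polynomial.eval_X, Polynomial.eval_C, map_sub]
  haveI := hI
  rw [Finset.prod_eq_zero_iff] at hQ
  obtain ⟨h0, _, h1⟩ := hQ
  have h2 : g * (h0 : G) ∈ T ρ I := by
    apply hx
    intro i
    have h3 := congrArg (fun q => q.coeff i) h1
    have h4 : (π r - π (pol ρ (g * h0) r)).coeff i =
        Ideal.Quotient.mk I (x i - ρ (g * h0) (x i)) := by
      change ((r.map (Ideal.Quotient.mk I)) -
        ((r.map (ρ (g * h0))).map (Ideal.Quotient.mk I))).coeff i = _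
      rw [Polynomial.coeff_sub, Polynomial.coeff_map, Polynomial.coeff_map, Polynomial.coeff_map,
        hr, map_sub]
    have h5 : (π r - π (pol ρ (g * h0) r)).coeff i = 0 := h3
    rw [h4, Ideal.Quotient.eq_zero_iff_mem, ← neg_sub] at h5
    exact neg_mem_iff.mp h5
  have h3 := h h2
  apply hω
  rw [eq_comm, QuotientGroup.eq, inv_one, one_mul]
  have h4 : g = (g * h0) * (h0 : G)⁻¹ := by group
  rw [h4]
  exact mul_mem h3 (inv_mem h0.2)

theorem exists_notMem {m : ℕ} {x : Fin m → R} (hx : Gen ρ x) {I : Ideal R} (hI : I.IsPrime)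
    (h : T ρ I ≤ H) : ∃ z ∈ DD ρ H, z ∉ I := by
  classical
  have hc : ∀ ω : G ⧸ H, ∃ c ∈ Inv ρ H, ω ≠ ((1 : G) : G ⧸ H) → c - cs ρ H c ω ∉ I := by
    intro ω
    by_cases hω : ω = ((1 : G) : G ⧸ H)
    · exact ⟨0, zero_mem _, fun h => absurd hω h⟩
    · obtain ⟨c, hc, hc2⟩ := exists_sep ρ hx hI h ω hω
      exact ⟨c, hc, fun _ => hc2⟩
  choose c hcI hc using hc
  let e := Fintype.equivFin (G ⧸ H)
  let b : R[X] := ∑ ω : G ⧸ H, C (c ω) * X ^ ((e ω : Fin _) : ℕ)
  have hb : ∀ ω, b.coeff (e ω) = c ω := by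
    intro ω
    change (∑ ω : G ⧸ H, C (c ω) * X ^ ((e ω : Fin _) : ℕ)).coeff (e ω) = c ω
    rw [Polynomial.finset_sum_coeff, Finset.sum_eq_single ω]
    · rw [Polynomial.coeff_C_mul_X_pow, if_pos rfl]
    · intro j _ hj
      rw [Polynomial.coeff_C_mul_X_pow, if_neg]
      intro h2
      exact hj (e.injective (Fin.ext h2)).symm
    · intro h2
      exact absurd (Finset.mem_univ _) h2
  have hbI : b ∈ Inv (pol ρ) H := by
    refine sum_mem fun ω _ => mul_mem ?_ ?_
    · intro g hg
      rw [pol_apply, Polynomial.map_C, hcI ω g hg]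
    · refine pow_mem ?_ _
      intro g hg
      rw [pol_apply, Polynomial.map_X]
  have hne : (theta (pol ρ) H b).map (Ideal.Quotient.mk I) ≠ 0 := by
    haveI := hI
    unfold theta
    rw [Polynomial.map_prod, Finset.prod_ne_zero_iff]
    intro ω hω h1
    have h2 : ((b - cs (pol ρ) H b ω).map (Ideal.Quotient.mk I)).coeff (e ω) = 0 := by
      rw [h1, Polynomial.coeff_zero]
    have h3 : Ideal.Quotient.mk I (c ω - cs ρ H (c ω) ω) = 0 := by
      rw [← h2, Polynomial.coeff_map, Polynomial.coeff_sub, hb]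
      congr 2
      unfold cs
      rw [pol_apply, Polynomial.coeff_map, hb]
    rw [Ideal.Quotient.eq_zero_iff_mem] at h3
    exact hc ω (Finset.ne_of_mem_erase hω) h3
  obtain ⟨n, hn⟩ : ∃ n, ((theta (pol ρ) H b).map (Ideal.Quotient.mk I)).coeff n ≠ 0 := by
    by_contra hcon
    push Not at hcon
    exact hne (Polynomial.ext fun n => by rw [hcon n, Polynomial.coeff_zero])
  refine ⟨(theta (pol ρ) H b).coeff n * 1, AddSubgroup.subset_closure
    ⟨b, n, 1, hbI, one_mem _, rfl⟩, ?_⟩
  rw [mul_one]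
  intro h1
  apply hn
  rw [Polynomial.coeff_map, Ideal.Quotient.eq_zero_iff_mem]
  exact h1

end DD

end Pool.Agent.R793.PR
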