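import Pool.Agent.R793.PR.Dec

/-!
A power of every element is a sum of elements of the conversion ideals: the proof.
-/

set_option autoImplicit false

open Polynomial

namespace Pool.Agent.R793.PR

section Char

variable {R : Type*} [CommRing R] (p : ℕ) [hp : Fact p.Prime] [CharP R p]

theorem exists_inv_cast {m : ℕ} (hm : ¬ p ∣ m) : ∃ c : ℕ, (c : R) * (m : R) = 1 := by
  have h1 : Nat.Coprime m p := ((Nat.Prime.coprime_iff_not_dvd hp.out).mpr hm).symm
  obtain ⟨c, -, hc⟩ := Nat.exists_mul_mod_eq_one_of_coprime h1 hp.out.one_lt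
  refine ⟨c, ?_⟩
  have h2 : m * c = p * (m * c / p) + 1 := by
    conv_lhs => rw [← Nat.div_add_mod (m * c) p, hc]
  have h3 : ((m * c : ℕ) : R) = 1 := by
    rw [h2]
    push_cast
    rw [CharP.cast_eq_zero, zero_mul, zero_add]
  rw [mul_comm]
  exact_mod_cast h3

theorem coeff_pow_X_add_C (l t : ℕ) (a : R) :
    ((X + C a) ^ (p ^ l * (t + 1)) : R[X]).coeff (p ^ l * t) = ((t + 1 : ℕ) : R) * a ^ p ^ l := by
  have h1 : (X + C a : R[X]) ^ (p ^ l * (t + 1)) =
      expand R (p ^ l) ((X + C (a ^ p ^ l)) ^ (t + 1)) := by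
    rw [pow_mul, add_pow_char_pow, map_pow, map_add, expand_X, expand_C, C_pow]
  rw [h1, coeff_expand_mul' (pow_pos hp.out.pos l), coeff_X_add_C_pow, Nat.add_sub_cancel_left,
    pow_one, Nat.choose_succ_self_right, mul_comm]

end Char

section Lift

variable {G : Type*} [Group G] [Finite G] {R : Type*} [CommRing R] (ρ : G →* (R →+* R))
  (p : ℕ) [hp : Fact p.Prime] [CharP R p] (K : Subgroup G)

theorem exists_lift : ∃ l : ℕ, ∀ s : R, ∃ g ∈ Inv ρ K, s ^ p ^ l - g ∈ II ρ K := by
  classical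
  letI : Fintype K := Fintype.ofFinite K
  obtain ⟨l, m', hm', hcard⟩ := Nat.exists_eq_pow_mul_and_not_dvd
    (n := Nat.card K) Nat.card_pos.ne' p hp.out.ne_one
  obtain ⟨t, rfl⟩ : ∃ t, m' = t + 1 := by
    cases m' with
    | zero => exact absurd (dvd_zero p) hm'
    | succ t => exact ⟨t, rfl⟩
  obtain ⟨c, hc⟩ := exists_inv_cast (R := R) p hm'
  refine ⟨l, fun s => ?_⟩
  let P : R[X] := ∏ h : K, (X + C (ρ h s))
  have hP : ∀ k, P.coeff k ∈ Inv ρ K := by
    intro k h0 hh0
    rw [← Polynomial.coeff_map]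
    congr 1
    change (∏ h : K, (X + C (ρ h s))).map _ = ∏ h : K, (X + C (ρ h s))
    rw [Polynomial.map_prod]
    refine Fintype.prod_equiv (Equiv.mulLeft (⟨h0, hh0⟩ : K)) _ _ fun h => ?_
    rw [Polynomial.map_add, Polynomial.map_X, Polynomial.map_C]
    congr 2
    exact (rho_mul ρ h0 (h : G) s).symm
  refine ⟨(c : R) * P.coeff (p ^ l * t), mul_mem ?_ (hP _), ?_⟩
  · intro h _
    exact map_natCast _ _
  · rw [← Ideal.Quotient.eq_zero_iff_mem, map_sub, sub_eq_zero, map_mul, ← Polynomial.coeff_map]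
    have h1 : P.map (Ideal.Quotient.mk (II ρ K)) =
        ((X + C s) ^ (p ^ l * (t + 1))).map (Ideal.Quotient.mk (II ρ K)) := by
      change (∏ h : K, (X + C (ρ h s))).map _ = _
      rw [Polynomial.map_prod, Polynomial.map_pow, ← hcard, Nat.card_eq_fintype_card]
      rw [Finset.prod_congr rfl (g := fun _ => ((X + C s).map (Ideal.Quotient.mk (II ρ K))))]
      · rw [Finset.prod_const, Finset.card_univ]
      · intro h _
        rw [Polynomial.map_add, Polynomial.map_add, Polynomial.map_C, Polynomial.map_C]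
        congr 2
        rw [Ideal.Quotient.eq]
        exact Ideal.subset_span ⟨h, h.2, s, rfl⟩
    rw [h1, Polynomial.coeff_map, coeff_pow_X_add_C, ← map_mul, ← mul_assoc, hc, one_mul]

theorem K_step {m : ℕ} {x : Fin m → R} (hx : Gen ρ x) (r : R)
    (hr : ∀ I : Ideal R, I.IsPrime → K < T ρ I → r ∈ I) :
    ∃ j : ℕ, ∃ θ ∈ DD ρ K, r ^ p ^ j - θ ∈ II ρ K := by
  obtain ⟨l, hl⟩ := exists_lift ρ p K
  let J : Ideal R := Ideal.span (DD ρ K : Set R) ⊔ II ρ K
  have h1 : r ∈ J.radical := by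
    rw [Ideal.radical_eq_sInf, Ideal.mem_sInf]
    rintro I ⟨hJI, hI⟩
    have h2 : K ≤ T ρ I := (II_le ρ).mp (le_sup_right.trans hJI)
    refine hr I hI (lt_of_le_of_ne h2 fun h3 => ?_)
    obtain ⟨z, hz, hz2⟩ := exists_notMem ρ (H := K) hx hI h3.ge
    exact hz2 (hJI (Ideal.mem_sup_left (Ideal.subset_span hz)))
  obtain ⟨N, hN⟩ := h1
  have h2 : r ^ p ^ N ∈ J := by
    have h3 : N ≤ p ^ N := (Nat.lt_pow_self hp.out.one_lt).le
    rw [← Nat.add_sub_of_le h3, pow_add]
    exact Ideal.mul_mem_right _ _ hN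
  let W : Ideal R :=
    { carrier := {u | ∃ θ ∈ DD ρ K, u ^ p ^ l - θ ∈ II ρ K}
      add_mem' := by
        rintro u v ⟨θ, hθ, hu⟩ ⟨θ', hθ', hv⟩
        refine ⟨θ + θ', add_mem hθ hθ', ?_⟩
        rw [add_pow_char_pow]
        have : u ^ p ^ l + v ^ p ^ l - (θ + θ') = (u ^ p ^ l - θ) + (v ^ p ^ l - θ') := by ring
        rw [this]
        exact add_mem hu hv
      zero_mem' := by
        refine ⟨0, zero_mem _, ?_⟩
        rw [zero_pow (pow_pos hp.out.pos l).ne', sub_zero]
        exact zero_mem _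
      smul_mem' := by
        rintro s u ⟨θ, hθ, hu⟩
        obtain ⟨g, hg, hs⟩ := hl s
        refine ⟨θ * g, DD_mul ρ hθ hg, ?_⟩
        rw [smul_eq_mul, mul_pow]
        have : s ^ p ^ l * u ^ p ^ l - θ * g = s ^ p ^ l * (u ^ p ^ l - θ) + θ * (s ^ p ^ l - g) := by
          ring
        rw [this]
        exact add_mem (Ideal.mul_mem_left _ _ hu) (Ideal.mul_mem_left _ _ hs) }
  have hJW : J ≤ W := by
    refine sup_le ?_ ?_
    · rw [Ideal.span_le]
      intro z hz
      refine ⟨z ^ p ^ l, DD_pow ρ hz (pow_pos hp.out.pos l), ?_⟩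
      rw [sub_self]
      exact zero_mem _
    · intro z hz
      refine ⟨0, zero_mem _, ?_⟩
      rw [sub_zero]
      exact Ideal.pow_mem_of_mem _ hz _ (pow_pos hp.out.pos l)
  obtain ⟨θ, hθ, h3⟩ := hJW h2
  refine ⟨N + l, θ, hθ, ?_⟩
  rw [pow_add, pow_mul]
  exact h3

open Classical in
noncomputable instance : Fintype (Subgroup G) := Fintype.ofFinite _

variable [IsReduced R]

theorem dec {m : ℕ} {x : Fin m → R} (hx : Gen ρ x) (f : R) :
    ∃ (e : ℕ) (c : Subgroup G → R), (∀ H, c H ∈ DD ρ H) ∧ f ^ p ^ e = ∑ H, c H := by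
  classical
  have key : ∀ k : ℕ, ∃ (e : ℕ) (c : Subgroup G → R), (∀ H, c H ∈ DD ρ H) ∧
      ∀ I : Ideal R, I.IsPrime → Nat.card G + 1 ≤ Nat.card (T ρ I) + k →
        f ^ p ^ e - ∑ H, c H ∈ I := by
    intro k
    induction k with
    | zero =>
      refine ⟨0, fun _ => 0, fun _ => zero_mem _, fun I _ h => ?_⟩
      have := Subgroup.card_le_card_group (T ρ I)
      omega
    | succ k ih =>
      obtain ⟨e, c, hc, hI⟩ := ih
      let r : R := f ^ p ^ e - ∑ H, c H
      have h1 : ∀ K : Subgroup G, ∃ j : ℕ, ∃ θ ∈ DD ρ K, (Nat.card K + k = Nat.card G →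
          r ^ p ^ j - θ ∈ II ρ K) ∧ (Nat.card K + k ≠ Nat.card G → θ = 0) := by
        intro K
        by_cases hK : Nat.card K + k = Nat.card G
        · obtain ⟨j, θ, hθ, h2⟩ := K_step ρ p K hx r (by
            intro I hIp hKI
            refine hI I hIp ?_
            have h3 : Nat.card K ≤ Nat.card (T ρ I) := Subgroup.card_le_of_le hKI.le
            have h4 : Nat.card K ≠ Nat.card (T ρ I) := by
              intro h5
              exact hKI.ne (Subgroup.eq_of_le_of_card_ge hKI.le h5.ge)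
            omega)
          exact ⟨j, θ, hθ, fun _ => h2, fun h => absurd hK h⟩
        · exact ⟨0, 0, zero_mem _, fun h => absurd h hK, fun _ => rfl⟩
      choose j θ hθ h2 h3 using h1
      let E : ℕ := ∑ K, j K
      have hjE : ∀ K, j K ≤ E := fun K => Finset.single_le_sum (fun _ _ => Nat.zero_le _)
        (Finset.mem_univ K)
      let θ' : Subgroup G → R := fun K => (θ K) ^ p ^ (E - j K)
      have hθ' : ∀ K, θ' K ∈ DD ρ K := fun K => DD_pow ρ (hθ K) (pow_pos hp.out.pos _)
      have h4 : ∀ K : Subgroup G, Nat.card K + k = Nat.card G → r ^ p ^ E - θ' K ∈ II ρ K := by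
        intro K hK
        have h5 : ∀ a b : R, a ^ p ^ E - b ^ p ^ (E - j K) =
            (a ^ p ^ j K - b) ^ p ^ (E - j K) := by
          intro a b
          rw [sub_pow_char_pow, ← pow_mul, ← pow_add, Nat.add_sub_of_le (hjE K)]
        change r ^ p ^ E - (θ K) ^ p ^ (E - j K) ∈ _
        rw [h5]
        exact Ideal.pow_mem_of_mem _ (h2 K hK) _ (pow_pos hp.out.pos _)
      have h0 : ∀ K : Subgroup G, Nat.card K + k ≠ Nat.card G → θ' K = 0 := by
        intro K hK
        change (θ K) ^ p ^ (E - j K) = 0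
        rw [h3 K hK, zero_pow (pow_pos hp.out.pos _).ne']
      refine ⟨e + E, fun K => (c K) ^ p ^ E + θ' K, fun K => add_mem
        (DD_pow ρ (hc K) (pow_pos hp.out.pos _)) (hθ' K), fun I hIp hcard => ?_⟩
      have h5 : f ^ p ^ (e + E) - ∑ K, ((c K) ^ p ^ E + θ' K) = r ^ p ^ E - ∑ K, θ' K := by
        change _ = (f ^ p ^ e - ∑ H, c H) ^ p ^ E - _
        rw [sub_pow_char_pow, sum_pow_char_pow, Finset.sum_add_distrib, ← pow_mul, ← pow_add]
        ring
      rw [h5]
      by_cases hT : Nat.card (T ρ I) + k = Nat.card G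
      · rw [← Finset.add_sum_erase _ _ (Finset.mem_univ (T ρ I)), ← sub_sub]
        refine sub_mem ((II_le ρ).mpr le_rfl (h4 _ hT)) (sum_mem fun K hK => ?_)
        by_cases hKc : Nat.card K + k = Nat.card G
        · refine DD_mem_of_not_le ρ (H := K) (fun h6 => ?_) (hθ' K)
          have h7 : T ρ I = K := Subgroup.eq_of_le_of_card_ge h6 (by omega)
          exact (Finset.ne_of_mem_erase hK) h7.symm
        · rw [h0 K hKc]
          exact zero_mem _
      · have h6 : Nat.card G + 1 ≤ Nat.card (T ρ I) + k := by omega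
        refine sub_mem (Ideal.pow_mem_of_mem _ (hI I hIp h6) _ (pow_pos hp.out.pos _))
          (sum_mem fun K _ => ?_)
        by_cases hKc : Nat.card K + k = Nat.card G
        · refine DD_mem_of_not_le ρ (H := K) (fun h7 => ?_) (hθ' K)
          have := Subgroup.card_le_of_le h7
          omega
        · rw [h0 K hKc]
          exact zero_mem _
  obtain ⟨e, c, hc, hI⟩ := key (Nat.card G)
  refine ⟨e, c, hc, ?_⟩
  rw [← sub_eq_zero]
  have h1 : f ^ p ^ e - ∑ H, c H ∈ nilradical R := by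
    rw [nilradical_eq_sInf, Ideal.mem_sInf]
    intro I hIp
    refine hI I hIp ?_
    have : 0 < Nat.card (T ρ I) := Nat.card_pos
    omega
  rw [nilradical_eq_zero] at h1
  exact h1

end Lift

end Pool.Agent.R793.PR
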