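import Pool.Agent.R793.PR.Core

/-!
The theorem for permutation representations.
-/

set_option autoImplicit false

namespace Pool.Agent.R793.PR

open MvPolynomial

section Split

variable {k : Type*} [Field k] {σ : Type*} {n : ℕ}

/-- The copies appearing in a monomial. -/
def js (m : (σ × Fin n) →₀ ℕ) : Finset (Fin n) := m.support.image Prod.snd

/-- The part of a polynomial supported on a given set of copies. -/
noncomputable def part (S : Finset (Fin n)) (f : MvPolynomial (σ × Fin n) k) :
    MvPolynomial (σ × Fin n) k :=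
  ∑ m ∈ f.support.filter (fun m => js m = S), monomial m (coeff m f)

theorem coeff_part (S : Finset (Fin n)) (f : MvPolynomial (σ × Fin n) k)
    (m : (σ × Fin n) →₀ ℕ) : coeff m (part S f) = if js m = S then coeff m f else 0 := by
  classical
  unfold part
  rw [coeff_sum]
  simp_rw [coeff_monomial]
  rw [Finset.sum_ite_eq']
  by_cases h : js m = S
  · by_cases h2 : coeff m f = 0
    · simp [h2]
    · simp [h, h2]
  · simp [h]

theorem sum_part (f : MvPolynomial (σ × Fin n) k) : ∑ S, part S f = f := by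
  classical
  ext m
  rw [coeff_sum]
  simp_rw [coeff_part]
  rw [Finset.sum_ite_eq, if_pos (Finset.mem_univ _)]

theorem support_part (S : Finset (Fin n)) (f : MvPolynomial (σ × Fin n) k) :
    (part S f).support ⊆ f.support := by
  intro m hm
  rw [mem_support_iff, coeff_part] at hm
  rw [mem_support_iff]
  intro h
  apply hm
  rw [h, ite_self]

theorem js_of_mem {S : Finset (Fin n)} {f : MvPolynomial (σ × Fin n) k}
    {m : (σ × Fin n) →₀ ℕ} (hm : m ∈ (part S f).support) : js m = S := by
  rw [mem_support_iff, coeff_part] at hm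
  by_contra h
  rw [if_neg h] at hm
  exact hm rfl

theorem vars_part (S : Finset (Fin n)) (f : MvPolynomial (σ × Fin n) k)
    {v : σ × Fin n} (hv : v ∈ (part S f).vars) : v.2 ∈ S := by
  rw [mem_vars] at hv
  obtain ⟨m, hm, hv⟩ := hv
  rw [← js_of_mem hm]
  exact Finset.mem_image_of_mem Prod.snd hv

theorem totalDegree_part (S : Finset (Fin n)) (f : MvPolynomial (σ × Fin n) k) :
    (part S f).totalDegree ≤ f.totalDegree :=
  Finset.sup_mono (support_part S f)

theorem card_js_le (m : (σ × Fin n) →₀ ℕ) : (js m).card ≤ m.sum fun _ e => e := by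
  refine Finset.card_image_le.trans ?_
  unfold Finsupp.sum
  rw [Finset.card_eq_sum_ones]
  refine Finset.sum_le_sum fun v hv => ?_
  exact Nat.one_le_iff_ne_zero.mpr (Finsupp.mem_support_iff.mp hv)

theorem part_eq_zero {S : Finset (Fin n)} {f : MvPolynomial (σ × Fin n) k}
    (h : f.totalDegree < S.card) : part S f = 0 := by
  rw [← support_eq_empty, Finset.eq_empty_iff_forall_notMem]
  intro m hm
  have h1 := js_of_mem hm
  have h2 := card_js_le m
  have h3 := le_totalDegree (support_part S f hm)
  rw [h1] at h2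
  omega

variable {G : Type*} [Group G] (a : G →* Function.End σ)

theorem coeff_rn (g : G) (f : MvPolynomial (σ × Fin n) k) (m : (σ × Fin n) →₀ ℕ) :
    coeff m (rn k (cp a (Fin n)) g f) =
      coeff (m.mapDomain (pm (cp a (Fin n)) g).symm) f := by
  have h : m = (m.mapDomain (pm (cp a (Fin n)) g).symm).mapDomain (pm (cp a (Fin n)) g) := by
    rw [← Finsupp.mapDomain_comp]
    have : (pm (cp a (Fin n)) g : σ × Fin n → σ × Fin n) ∘ (pm (cp a (Fin n)) g).symm = id :=
      funext fun x => (pm (cp a (Fin n)) g).apply_symm_apply x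
    rw [this, Finsupp.mapDomain_id]
  conv_lhs => rw [h]
  exact coeff_rename_mapDomain _ (pm (cp a (Fin n)) g).injective f _

theorem js_mapDomain (g : G) (m : (σ × Fin n) →₀ ℕ) :
    js (m.mapDomain (pm (cp a (Fin n)) g).symm) = js m := by
  classical
  unfold js
  rw [Finsupp.mapDomain_support_of_injective (pm (cp a (Fin n)) g).symm.injective,
    Finset.image_image]
  rfl

theorem part_inv (S : Finset (Fin n)) {f : MvPolynomial (σ × Fin n) k}
    (hf : f ∈ Inv (rn k (cp a (Fin n))) ⊤) : part S f ∈ Inv (rn k (cp a (Fin n))) ⊤ := by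
  intro g hg
  ext m
  rw [coeff_rn, coeff_part, coeff_part, js_mapDomain]
  have h1 := congrArg (coeff m) (hf g hg)
  rw [coeff_rn] at h1
  rw [h1]

end Split

section Perm

variable (k : Type*) [Field k] (p : ℕ) [hp : Fact p.Prime] [CharP k p] {G : Type*} [Group G]
  {σ : Type*} [Fintype σ] (a : G →* Function.End σ)

theorem perm_bounded (D : ℕ) : ∃ N : ℕ, ∀ (n : ℕ) (f : MvPolynomial (σ × Fin n) k),
    f ∈ Inv (rn k (cp a (Fin n))) ⊤ → f.totalDegree ≤ D →
      f ^ p ^ N ∈ PP k n (Inv (rn k a) ⊤ : Set (MvPolynomial σ k)) := by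
  classical
  obtain ⟨M, α, hα, hrel⟩ := exists_rel k a (p ^ (D + 1))
  have hD : D < p ^ (D + 1) :=
    lt_trans (Nat.lt_succ_self D) (Nat.lt_pow_self hp.out.one_lt)
  refine ⟨(D + 1) * ((D + 1) * M), fun n f hf hd => ?_⟩
  have h1 : f ^ p ^ ((D + 1) * ((D + 1) * M)) =
      ∑ S : Finset (Fin n), (part S f) ^ p ^ ((D + 1) * ((D + 1) * M)) := by
    conv_lhs => rw [← sum_part f, sum_pow_char_pow]
  rw [h1]
  refine sum_mem fun S _ => ?_
  by_cases hS : f.totalDegree < S.card
  · rw [part_eq_zero hS, zero_pow (pow_pos hp.out.pos _).ne']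
    exact zero_mem _
  · have hcard : Fintype.card S ≤ Fintype.card (Fin (D + 1)) := by
      rw [Fintype.card_coe, Fintype.card_fin]
      omega
    obtain ⟨e⟩ := Function.Embedding.nonempty_of_card_le hcard
    rw [pow_mul]
    refine core p a hD hα hrel S (fun j => if h : j ∈ S then e ⟨j, h⟩ else 0) ?_ (part S f)
      (part_inv a S hf) ((totalDegree_part S f).trans hd) (fun v hv => vars_part S f hv)
    intro i hi j hj hij
    simp only [dif_pos hi, dif_pos hj] at hij
    exact congrArg Subtype.val (e.injective hij)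

theorem perm [Finite G] : ∃ d : ℕ, ∀ (n : ℕ) (f : MvPolynomial (σ × Fin n) k),
    f ∈ Inv (rn k (cp a (Fin n))) ⊤ →
      f ^ p ^ d ∈ PP k n (Inv (rn k a) ⊤ : Set (MvPolynomial σ k)) := by
  classical
  obtain ⟨e, β, h1⟩ := s1 k a p
  obtain ⟨N, hN⟩ := perm_bounded k p a β
  refine ⟨e + N, fun n f hf => ?_⟩
  rw [pow_add, pow_mul]
  have key : ∀ u ∈ EE k (cp a (Fin n)) β,
      u ^ p ^ N ∈ PP k n (Inv (rn k a) ⊤ : Set (MvPolynomial σ k)) := by
    intro u hu
    induction hu using Algebra.adjoin_induction with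
    | mem x hx => exact hN n x hx.1 hx.2
    | algebraMap c =>
      rw [← map_pow]
      exact Subalgebra.algebraMap_mem _ _
    | add x y _ _ hx hy =>
      rw [add_pow_char_pow]
      exact add_mem hx hy
    | mul x y _ _ hx hy =>
      rw [mul_pow]
      exact mul_mem hx hy
  exact key _ (h1 n f hf)

end Perm

end Pool.Agent.R793.PR
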