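import Pool.Agent.R793.PR.Rel

/-!
Polarizations and base-`Q` digits.
-/

set_option autoImplicit false

namespace Pool.Agent.R793.PR

open MvPolynomial

section Pol

variable (k : Type*) [Field k] {σ : Type*} (n : ℕ)

/-- The polynomial `f(t₁ v₁ + … + tₙ vₙ)` in the indeterminates `t₁, …, tₙ`. -/
noncomputable def polT :
    MvPolynomial σ k →ₐ[k] MvPolynomial (Fin n) (MvPolynomial (σ × Fin n) k) :=
  aeval fun s => ∑ j : Fin n, X j * C (X (s, j))

theorem polT_X (s : σ) : polT k n (X s) = ∑ j : Fin n, X j * C (X (s, j)) := aeval_X _ _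

theorem polT_C (c : k) : polT k n (C c : MvPolynomial σ k) = C (C c) := by
  change aeval _ (C c) = _
  rw [aeval_C]
  rfl

/-- The algebra generated by the polarizations of the elements of a set. -/
noncomputable def PP (S : Set (MvPolynomial σ k)) : Subalgebra k (MvPolynomial (σ × Fin n) k) :=
  Algebra.adjoin k {q | ∃ h ∈ S, ∃ β, q = coeff β (polT k n h)}

variable {k n}

theorem coeff_mem_PP {S : Set (MvPolynomial σ k)} {h : MvPolynomial σ k} (hh : h ∈ S)
    (β : Fin n →₀ ℕ) : coeff β (polT k n h) ∈ PP k n S :=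
  Algebra.subset_adjoin ⟨h, hh, β, rfl⟩

theorem io_mem_PP {S : Set (MvPolynomial σ k)} {h : MvPolynomial σ k} (hh : h ∈ S)
    (j : Fin n) : io k j h ∈ PP k n S := by
  classical
  have h1 : eval₂Hom (RingHom.id (MvPolynomial (σ × Fin n) k))
      (fun j' : Fin n => if j' = j then 1 else 0) (polT k n h) ∈ (PP k n S).toSubring := by
    refine eval₂_mem (PP k n S).toSubring _ _ _ (fun r hr => hr) (fun t => ?_) _
      (fun m => coeff_mem_PP hh m)
    split_ifs
    · exact one_mem _
    · exact zero_mem _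
  have h2 : (eval₂Hom (RingHom.id (MvPolynomial (σ × Fin n) k))
      (fun j' : Fin n => if j' = j then 1 else 0)).comp (polT k n).toRingHom =
      (io k j).toRingHom := by
    refine MvPolynomial.ringHom_ext (fun c => ?_) (fun s => ?_)
    · change eval₂Hom _ _ (polT k n (C c)) = rename _ (C c)
      rw [polT_C, eval₂Hom_C, rename_C]
      rfl
    · change eval₂Hom _ _ (polT k n (X s)) = rename _ (X s)
      rw [polT_X, map_sum, rename_X, Finset.sum_eq_single j]
      · rw [map_mul, eval₂Hom_X', eval₂Hom_C, if_pos rfl, one_mul]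
        rfl
      · intro j' _ hj
        rw [map_mul, eval₂Hom_X', if_neg hj, zero_mul]
      · intro h
        exact absurd (Finset.mem_univ _) h
  have h3 : eval₂Hom (RingHom.id (MvPolynomial (σ × Fin n) k))
      (fun j' : Fin n => if j' = j then 1 else 0) (polT k n h) = io k j h :=
    RingHom.congr_fun h2 h
  rw [← h3]
  exact h1

end Pol

section Digits

variable {S : Type*} [CommRing S]

/-- The exponent with given digits. -/
noncomputable def mu (Q W n : ℕ) (m : (Fin W × Fin n) →₀ ℕ) : Fin n →₀ ℕ :=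
  Finsupp.equivFunOnFinite.symm fun j => ∑ w : Fin W, m (w, j) * Q ^ (w : ℕ)

theorem mu_apply (Q W n : ℕ) (m : (Fin W × Fin n) →₀ ℕ) (j : Fin n) :
    mu Q W n m j = ∑ w : Fin W, m (w, j) * Q ^ (w : ℕ) := rfl

theorem mu_inj {Q W n : ℕ} {m m' : (Fin W × Fin n) →₀ ℕ} (hm : ∀ u, m u < Q)
    (hm' : ∀ u, m' u < Q) (h : mu Q W n m = mu Q W n m') : m = m' := by
  ext ⟨w, j⟩
  have h1 := congrArg (fun f => f j) h
  simp only [mu_apply] at h1
  have h2 : finFunctionFinEquiv (fun w : Fin W => (⟨m (w, j), hm _⟩ : Fin Q)) =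
      finFunctionFinEquiv (fun w : Fin W => (⟨m' (w, j), hm' _⟩ : Fin Q)) := by
    apply Fin.ext
    rw [finFunctionFinEquiv_apply, finFunctionFinEquiv_apply]
    exact h1
  have h3 := congrFun (finFunctionFinEquiv.injective h2) w
  exact congrArg Fin.val h3

variable (S)

/-- The substitution of powers. -/
noncomputable def psi (Q W n : ℕ) :
    MvPolynomial (Fin W × Fin n) S →+* MvPolynomial (Fin n) S :=
  eval₂Hom C (fun u => X u.2 ^ Q ^ (u.1 : ℕ))

variable {S}

theorem psi_monomial (Q W n : ℕ) (m : (Fin W × Fin n) →₀ ℕ) (c : S) :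
    psi S Q W n (monomial m c) = monomial (mu Q W n m) c := by
  unfold psi
  rw [eval₂Hom_monomial, monomial_eq, Finsupp.prod_fintype _ _ (fun _ => pow_zero _),
    Finsupp.prod_fintype _ _ (fun _ => pow_zero _), Fintype.prod_prod_type_right]
  congr 1
  refine Finset.prod_congr rfl fun j _ => ?_
  rw [mu_apply, ← Finset.prod_pow_eq_pow_sum]
  refine Finset.prod_congr rfl fun w _ => ?_
  rw [← pow_mul, mul_comm]

theorem coeff_psi {Q W n : ℕ} (Φ : MvPolynomial (Fin W × Fin n) S) (hΦ : Φ.totalDegree < Q)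
    {m₀ : (Fin W × Fin n) →₀ ℕ} (h₀ : m₀ ∈ Φ.support) :
    coeff (mu Q W n m₀) (psi S Q W n Φ) = coeff m₀ Φ := by
  classical
  have hlt : ∀ m ∈ Φ.support, ∀ u, m u < Q := by
    intro m hm u
    refine lt_of_le_of_lt ?_ hΦ
    refine le_trans ?_ (le_totalDegree hm)
    by_cases hu : u ∈ m.support
    · exact Finset.single_le_sum (f := fun u => m u) (fun _ _ => Nat.zero_le _) hu
    · rw [Finsupp.notMem_support_iff.mp hu]
      exact Nat.zero_le _
  conv_lhs => rw [Φ.as_sum, map_sum, coeff_sum]
  rw [Finset.sum_eq_single m₀]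
  · rw [psi_monomial, coeff_monomial, if_pos rfl]
  · intro m hm hne
    rw [psi_monomial, coeff_monomial, if_neg]
    intro h
    exact hne (mu_inj (hlt m hm) (hlt m₀ h₀) h)
  · intro h
    exact absurd h₀ h

end Digits

section Deg

variable {R : Type*} [CommRing R]

theorem Fil.prod_mem' (F : Fil R) {ι : Type*} (s : Finset ι) (a : ι → R) (n : ι → ℕ)
    (ha : ∀ i ∈ s, a i ∈ F.F (n i)) : ∏ i ∈ s, a i ∈ F.F (∑ i ∈ s, n i) := by
  classical
  induction s using Finset.induction_on with
  | empty =>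
    rw [Finset.prod_empty]
    exact F.mono (Nat.zero_le _) F.one
  | insert i s hi ih =>
    rw [Finset.prod_insert hi, Finset.sum_insert hi]
    exact F.mul (ha i (Finset.mem_insert_self _ _))
      (ih (fun i hi => ha i (Finset.mem_insert_of_mem hi)))

theorem Fil.eval₂_mem {A τ : Type*} [CommRing A] (F : Fil R) (φ : A →+* R) (x : τ → R)
    (hφ : ∀ r, φ r ∈ F.F 0) (hx : ∀ t, x t ∈ F.F 1) (f : MvPolynomial τ A) {D : ℕ}
    (hf : f.totalDegree ≤ D) : eval₂Hom φ x f ∈ F.F D := by
  rw [coe_eval₂Hom, eval₂_eq]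
  refine sum_mem fun d hd => ?_
  have h1 : ∏ i ∈ d.support, x i ^ d i ∈ F.F (∑ i ∈ d.support, d i) := by
    refine F.prod_mem' _ _ _ fun i _ => ?_
    have h2 := F.pow (hx i) (d i)
    rw [mul_one] at h2
    exact h2
  have h3 := F.mul (hφ (coeff d f)) h1
  rw [zero_add] at h3
  exact F.mono ((le_totalDegree hd).trans hf) h3

/-- The filtration by degree. -/
noncomputable def degF (R : Type*) [CommRing R] (σ : Type*) : Fil (MvPolynomial σ R) where
  F n :=
    { carrier := {f | f.totalDegree ≤ n}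
      add_mem' := fun {f g} hf hg => (totalDegree_add f g).trans (max_le hf hg)
      zero_mem' := by
        change (0 : MvPolynomial σ R).totalDegree ≤ n
        rw [totalDegree_zero]
        exact Nat.zero_le _
      neg_mem' := fun {f} hf => by
        change (-f).totalDegree ≤ n
        rw [totalDegree_neg]
        exact hf }
  mono h _ hf := hf.trans h
  mul {m n f g} hf hg := (totalDegree_mul f g).trans (Nat.add_le_add hf hg)
  one := totalDegree_one.le

end Deg

end Pool.Agent.R793.PR
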