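import Pool.Agent.R793.PR.Perm

/-!
Reduction of arbitrary representations to permutation representations.
-/

set_option autoImplicit false

namespace Pool.Agent.R793.PR

open MvPolynomial

section Sub

variable {k : Type*} [Field k] {ι : Type*} [Fintype ι]

/-- The substitution attached to a matrix on several copies. -/
noncomputable def sb (A : Matrix ι ι k) (J : Type*) :
    MvPolynomial (ι × J) k →ₐ[k] MvPolynomial (ι × J) k :=
  aeval fun v => ∑ l, C (A v.1 l) * X (l, v.2)

/-- The substitution attached to a matrix. -/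
noncomputable def sb₁ (A : Matrix ι ι k) : MvPolynomial ι k →ₐ[k] MvPolynomial ι k :=
  aeval fun i => ∑ l, C (A i l) * X l

theorem sb_X (A : Matrix ι ι k) {J : Type*} (v : ι × J) :
    sb A J (X v) = ∑ l, C (A v.1 l) * X (l, v.2) := aeval_X _ _

theorem sb₁_X (A : Matrix ι ι k) (i : ι) : sb₁ A (X i) = ∑ l, C (A i l) * X l := aeval_X _ _

theorem sb_C (A : Matrix ι ι k) {J : Type*} (c : k) : sb A J (C c) = C c := by
  unfold sb
  rw [aeval_C]
  rfl

theorem sb₁_C (A : Matrix ι ι k) (c : k) : sb₁ A (C c) = C c := by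
  unfold sb₁
  rw [aeval_C]
  rfl

theorem sb_mul (A B : Matrix ι ι k) {J : Type*} (f : MvPolynomial (ι × J) k) :
    sb (A * B) J f = sb B J (sb A J f) := by
  have h : sb (A * B) J = (sb B J).comp (sb A J) := by
    refine MvPolynomial.algHom_ext fun v => ?_
    rw [AlgHom.comp_apply, sb_X, sb_X, map_sum]
    have h1 : ∀ l, sb B J (C (A v.1 l) * X (l, v.2)) =
        ∑ m, C (A v.1 l) * (C (B l m) * X (m, v.2)) := by
      intro l
      rw [map_mul, sb_C, sb_X, Finset.mul_sum]
    rw [Finset.sum_congr rfl fun l _ => h1 l, Finset.sum_comm]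
    refine Finset.sum_congr rfl fun m _ => ?_
    rw [Matrix.mul_apply, map_sum, Finset.sum_mul]
    refine Finset.sum_congr rfl fun l _ => ?_
    rw [C_mul, mul_assoc]
  exact congrArg (fun φ => φ f) h

theorem sb₁_mul (A B : Matrix ι ι k) (f : MvPolynomial ι k) :
    sb₁ (A * B) f = sb₁ B (sb₁ A f) := by
  have h : sb₁ (A * B) = (sb₁ B).comp (sb₁ A) := by
    refine MvPolynomial.algHom_ext fun i => ?_
    rw [AlgHom.comp_apply, sb₁_X, sb₁_X, map_sum]
    have h1 : ∀ l, sb₁ B (C (A i l) * X l) = ∑ m, C (A i l) * (C (B l m) * X m) := by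
      intro l
      rw [map_mul, sb₁_C, sb₁_X, Finset.mul_sum]
    rw [Finset.sum_congr rfl fun l _ => h1 l, Finset.sum_comm]
    refine Finset.sum_congr rfl fun m _ => ?_
    rw [Matrix.mul_apply, map_sum, Finset.sum_mul]
    refine Finset.sum_congr rfl fun l _ => ?_
    rw [C_mul, mul_assoc]
  exact congrArg (fun φ => φ f) h

end Sub

section Red

variable {k : Type*} [Field k] {ι : Type*} [Fintype ι] [DecidableEq ι] {G : Type*} [Group G]
  (A : G →* Matrix ι ι k)

/-- The regular action on the variables. -/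
def rg (G ι : Type*) [Group G] : G →* Function.End (G × ι) where
  toFun g v := (g * v.1, v.2)
  map_one' := by
    funext v
    change (1 * v.1, v.2) = v
    rw [one_mul]
  map_mul' g h := by
    funext v
    change (g * h * v.1, v.2) = (g * (h * v.1), v.2)
    rw [mul_assoc]

/-- The map from the polynomial ring of the permutation representation, on several copies. -/
noncomputable def phi (J : Type*) : MvPolynomial ((G × ι) × J) k →ₐ[k] MvPolynomial (ι × J) k :=
  aeval fun v => sb (A v.1.1⁻¹) J (X (v.1.2, v.2))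

/-- The map from the polynomial ring of the permutation representation. -/
noncomputable def phi₁ : MvPolynomial (G × ι) k →ₐ[k] MvPolynomial ι k :=
  aeval fun v => sb₁ (A v.1⁻¹) (X v.2)

theorem phi_X {J : Type*} (v : (G × ι) × J) :
    phi A J (X v) = sb (A v.1.1⁻¹) J (X (v.1.2, v.2)) := aeval_X _ _

theorem phi₁_X (v : G × ι) : phi₁ A (X v) = sb₁ (A v.1⁻¹) (X v.2) := aeval_X _ _

theorem phi₁_rn (g : G) (f : MvPolynomial (G × ι) k) :
    phi₁ A (rn k (rg G ι) g f) = sb₁ (A g⁻¹) (phi₁ A f) := by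
  have h : (phi₁ A).comp (rename (rg G ι g)) = (sb₁ (A g⁻¹)).comp (phi₁ A) := by
    refine MvPolynomial.algHom_ext fun v => ?_
    rw [AlgHom.comp_apply, AlgHom.comp_apply, rename_X, phi₁_X, phi₁_X, ← sb₁_mul, ← map_mul]
    change sb₁ (A (g * v.1)⁻¹) (X v.2) = _
    rw [mul_inv_rev]
  exact congrArg (fun φ => φ f) h

/-- The copy of a polynomial attached to a group element. -/
noncomputable def up (J : Type*) (g : G) (f : MvPolynomial (ι × J) k) :
    MvPolynomial ((G × ι) × J) k := rename (fun v : ι × J => ((g, v.1), v.2)) f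

theorem rn_up {J : Type*} (g g' : G) (f : MvPolynomial (ι × J) k) :
    rn k (cp (rg G ι) J) g (up J g' f) = up J (g * g') f := by
  unfold up
  rw [rn_apply, rename_rename]
  rfl

theorem phi_up {J : Type*} (g : G) (f : MvPolynomial (ι × J) k) :
    phi A J (up J g f) = sb (A g⁻¹) J f := by
  have h : (phi A J).comp (rename (fun v : ι × J => ((g, v.1), v.2))) = sb (A g⁻¹) J := by
    refine MvPolynomial.algHom_ext fun v => ?_
    rw [AlgHom.comp_apply, rename_X, phi_X]
  exact congrArg (fun φ => φ f) h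

/-- The invariants of the representation. -/
def vInv₁ : Set (MvPolynomial ι k) := {f | ∀ g, sb₁ (A g) f = f}

theorem phi_coeff_polT {n : ℕ} (h : MvPolynomial (G × ι) k) (β : Fin n →₀ ℕ) :
    phi A (Fin n) (coeff β (polT k n h)) = coeff β (polT k n (phi₁ A h)) := by
  have h1 : (MvPolynomial.map (phi A (Fin n)).toRingHom).comp (polT k n).toRingHom =
      (polT k n).toRingHom.comp (phi₁ A).toRingHom := by
    refine MvPolynomial.ringHom_ext (fun c => ?_) (fun v => ?_)
    · change MvPolynomial.map _ (polT k n (C c)) = polT k n (phi₁ A (C c))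
      have h2 : phi₁ A (C c) = C c := by
        unfold phi₁
        rw [aeval_C]
        rfl
      have h3 : phi A (Fin n) (C c) = C c := by
        unfold phi
        rw [aeval_C]
        rfl
      rw [polT_C, h2, polT_C, map_C]
      exact congrArg C h3
    · change MvPolynomial.map _ (polT k n (X v)) = polT k n (phi₁ A (X v))
      rw [polT_X, phi₁_X, sb₁_X, map_sum, map_sum]
      have h2 : ∀ j : Fin n, MvPolynomial.map (phi A (Fin n)).toRingHom
          (X j * C (X (v, j)) : MvPolynomial (Fin n) (MvPolynomial ((G × ι) × Fin n) k)) =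
          ∑ l, C (C (A v.1⁻¹ v.2 l)) * (X j * C (X (l, j))) := by
        intro j
        rw [map_mul, map_X, map_C]
        change X j * C (phi A (Fin n) (X (v, j))) = _
        rw [phi_X, sb_X, map_sum, Finset.mul_sum]
        refine Finset.sum_congr rfl fun l _ => ?_
        rw [C_mul]
        ring
      rw [Finset.sum_congr rfl fun j _ => h2 j, Finset.sum_comm]
      refine Finset.sum_congr rfl fun l _ => ?_
      rw [map_mul, polT_C, polT_X, Finset.mul_sum]
  have h2 := congrArg (coeff β) (RingHom.congr_fun h1 h)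
  rw [RingHom.comp_apply, coeff_map] at h2
  exact h2

theorem phi_PP {n : ℕ} {q : MvPolynomial ((G × ι) × Fin n) k}
    (hq : q ∈ PP k n (Inv (rn k (rg G ι)) ⊤ : Set (MvPolynomial (G × ι) k))) :
    phi A (Fin n) q ∈ PP k n (vInv₁ A) := by
  induction hq using Algebra.adjoin_induction with
  | mem x hx =>
    obtain ⟨h, hh, β, rfl⟩ := hx
    rw [phi_coeff_polT]
    refine coeff_mem_PP ?_ _
    intro g
    have h1 := phi₁_rn A g⁻¹ h
    rw [hh g⁻¹ (Subgroup.mem_top _), inv_inv] at h1
    exact h1.symm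
  | algebraMap c =>
    rw [AlgHom.commutes]
    exact Subalgebra.algebraMap_mem _ _
  | add x y _ _ hx hy =>
    rw [map_add]
    exact add_mem hx hy
  | mul x y _ _ hx hy =>
    rw [map_mul]
    exact mul_mem hx hy

theorem coeff_mem_PP_adjoin {n : ℕ} {S : Set (MvPolynomial ι k)} {f : MvPolynomial ι k}
    (hf : f ∈ Algebra.adjoin k S) : ∀ β, coeff β (polT k n f) ∈ PP k n S := by
  classical
  induction hf using Algebra.adjoin_induction with
  | mem x hx => exact fun β => coeff_mem_PP hx β
  | algebraMap c =>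
    intro β
    have h1 : polT k n (algebraMap k (MvPolynomial ι k) c) = C (C c) := polT_C k n c
    rw [h1, coeff_C]
    split_ifs
    · exact Subalgebra.algebraMap_mem _ _
    · exact zero_mem _
  | add x y hx hy ihx ihy =>
    intro β
    rw [map_add, coeff_add]
    exact add_mem (ihx β) (ihy β)
  | mul x y hx hy ihx ihy =>
    intro β
    rw [map_mul, coeff_mul]
    exact sum_mem fun x _ => mul_mem (ihx _) (ihy _)

theorem PP_le {n : ℕ} {S : Set (MvPolynomial ι k)} {T : Set (MvPolynomial ι k)}
    (h : ∀ f ∈ T, f ∈ Algebra.adjoin k S) : PP k n T ≤ PP k n S := by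
  unfold PP
  rw [Algebra.adjoin_le_iff]
  rintro _ ⟨f, hf, β, rfl⟩
  exact coeff_mem_PP_adjoin (h f hf) β

theorem main [Finite G] (p : ℕ) [hp : Fact p.Prime] [CharP k p] :
    ∃ d : ℕ, ∀ (n : ℕ) (f : MvPolynomial (ι × Fin n) k), (∀ g, sb (A g) (Fin n) f = f) →
      f ^ p ^ d ∈ PP k n (vInv₁ A) := by
  classical
  letI : Fintype G := Fintype.ofFinite G
  obtain ⟨l, m', hm', hcard⟩ := Nat.exists_eq_pow_mul_and_not_dvd
    (n := Nat.card G) Nat.card_pos.ne' p hp.out.ne_one
  obtain ⟨t, rfl⟩ : ∃ t, m' = t + 1 := by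
    cases m' with
    | zero => exact absurd (dvd_zero p) hm'
    | succ t => exact ⟨t, rfl⟩
  obtain ⟨d, hd⟩ := perm k p (rg G ι)
  refine ⟨l + d, fun n f hf => ?_⟩
  let q : Polynomial (MvPolynomial ((G × ι) × Fin n) k) :=
    ∏ g : G, (Polynomial.X + Polynomial.C (up (Fin n) g f))
  have hq : ∀ i, q.coeff i ∈ Inv (rn k (cp (rg G ι) (Fin n))) ⊤ := by
    intro i g _
    rw [← Polynomial.coeff_map]
    congr 1
    change (∏ g : G, (Polynomial.X + Polynomial.C (up (Fin n) g f))).map _ =
      ∏ g : G, (Polynomial.X + Polynomial.C (up (Fin n) g f))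
    rw [Polynomial.map_prod]
    refine Fintype.prod_equiv (Equiv.mulLeft g) _ _ fun g' => ?_
    rw [Polynomial.map_add, Polynomial.map_X, Polynomial.map_C, rn_up]
    rfl
  have h1 : q.map (phi A (Fin n)).toRingHom =
      (Polynomial.X + Polynomial.C f) ^ (p ^ l * (t + 1)) := by
    change (∏ g : G, (Polynomial.X + Polynomial.C (up (Fin n) g f))).map _ = _
    rw [Polynomial.map_prod, ← hcard, Nat.card_eq_fintype_card, ← Finset.card_univ,
      ← Finset.prod_const]
    refine Finset.prod_congr rfl fun g _ => ?_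
    rw [Polynomial.map_add, Polynomial.map_X, Polynomial.map_C]
    congr 2
    change phi A (Fin n) (up (Fin n) g f) = f
    rw [phi_up, hf]
  have h2 : phi A (Fin n) (q.coeff (p ^ l * t)) =
      ((t + 1 : ℕ) : MvPolynomial (ι × Fin n) k) * f ^ p ^ l := by
    rw [← coeff_pow_X_add_C p l t f, ← h1, Polynomial.coeff_map]
    rfl
  have h3 := phi_PP A (hd n _ (hq (p ^ l * t)))
  rw [map_pow, h2] at h3
  obtain ⟨c, hc⟩ := exists_inv_cast (R := MvPolynomial (ι × Fin n) k) p hm'
  have h4 : f ^ p ^ l = (c : MvPolynomial (ι × Fin n) k) *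
      (((t + 1 : ℕ) : MvPolynomial (ι × Fin n) k) * f ^ p ^ l) := by
    rw [← mul_assoc, hc, one_mul]
  rw [pow_add, pow_mul, h4, mul_pow]
  exact mul_mem (pow_mem (natCast_mem _ c) _) h3

end Red

end Pool.Agent.R793.PR
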