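import Pool.Agent.R793.PR.S1

/-!
Relations between the powers of the variables with invariant coefficients.
-/

set_option autoImplicit false

namespace Pool.Agent.R793.PR

open MvPolynomial

theorem exists_mem_span {A N : Type*} [CommRing A] [AddCommGroup N] [Module A N]
    [hN : IsNoetherian A N] (z : ℕ → N) :
    ∃ (M : ℕ) (α : Fin M → A), z M = ∑ i : Fin M, α i • z i := by
  let F : ℕ →o Submodule A N :=
    { toFun := fun n => Submodule.span A (Set.range fun i : Fin n => z i)
      monotone' := by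
        intro m n h
        apply Submodule.span_mono
        rintro _ ⟨i, rfl⟩
        exact ⟨Fin.castLE h i, rfl⟩ }
  obtain ⟨M, hM⟩ := monotone_stabilizes_iff_noetherian.mpr hN F
  have h1 : Submodule.span A (Set.range fun i : Fin M => z i) =
      Submodule.span A (Set.range fun i : Fin (M + 1) => z i) := hM (M + 1) (Nat.le_succ M)
  have h2 : z M ∈ Submodule.span A (Set.range fun i : Fin (M + 1) => z i) :=
    Submodule.subset_span ⟨Fin.last M, rfl⟩
  rw [← h1] at h2
  obtain ⟨α, hα⟩ := (Submodule.mem_span_range_iff_exists_fun A).mp h2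
  exact ⟨M, α, hα.symm⟩

section Rel

variable (k : Type*) [Field k] {G : Type*} [Group G] {σ : Type*} [Fintype σ]
  (a : G →* Function.End σ)

/-- The permutation attached to a group element. -/
def pm {σ : Type*} (a : G →* Function.End σ) (g : G) : σ ≃ σ where
  toFun := a g
  invFun := a g⁻¹
  left_inv s := by
    have h : a (g⁻¹ * g) s = s := by
      rw [inv_mul_cancel, map_one]
      rfl
    rw [map_mul] at h
    exact h
  right_inv s := by
    have h : a (g * g⁻¹) s = s := by
      rw [mul_inv_cancel, map_one]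
      rfl
    rw [map_mul] at h
    exact h

/-- The polynomial with the variables as roots. -/
noncomputable def FF (σ : Type*) [Fintype σ] : Polynomial (MvPolynomial σ k) :=
  ∏ s : σ, (Polynomial.X - Polynomial.C (X s))

theorem FF_coeff (i : ℕ) : (FF k σ).coeff i ∈ Inv (rn k a) ⊤ := by
  intro g _
  rw [← Polynomial.coeff_map]
  congr 1
  unfold FF
  rw [Polynomial.map_prod]
  refine Fintype.prod_equiv (pm a g) _ _ fun s => ?_
  rw [Polynomial.map_sub, Polynomial.map_X, Polynomial.map_C, rn_X]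
  rfl

theorem exists_rel (Q : ℕ) : ∃ (M : ℕ) (α : Fin M → MvPolynomial σ k),
    (∀ i, α i ∈ Inv (rn k a) ⊤) ∧
    ∀ s, (X s : MvPolynomial σ k) ^ Q ^ M = ∑ i : Fin M, α i * X s ^ Q ^ (i : ℕ) := by
  classical
  obtain ⟨d, hd⟩ : ∃ d, d = (FF k σ).natDegree := ⟨_, rfl⟩
  have hFmon : (FF k σ).Monic := Polynomial.monic_prod_X_sub_C _ _
  let φ : MvPolynomial (Fin d) k →+* MvPolynomial σ k :=
    eval₂Hom C (fun i => (FF k σ).coeff i)
  let F₁ : Polynomial (MvPolynomial (Fin d) k) :=
    Polynomial.X ^ d + ∑ i : Fin d, Polynomial.C (X i) * Polynomial.X ^ (i : ℕ)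
  have hF₁ : F₁.Monic := by
    apply Polynomial.monic_X_pow_add
    rw [← Polynomial.mem_degreeLT]
    refine sum_mem fun i _ => ?_
    rw [Polynomial.mem_degreeLT]
    refine lt_of_le_of_lt (Polynomial.degree_C_mul_X_pow_le _ _) ?_
    exact_mod_cast i.2
  have hmap : F₁.map φ = FF k σ := by
    change (Polynomial.X ^ d + ∑ i : Fin d, Polynomial.C (X i) * Polynomial.X ^ (i : ℕ)).map φ = _
    rw [hFmon.as_sum, ← hd, Polynomial.map_add, Polynomial.map_pow, Polynomial.map_X,
      Polynomial.map_sum, Finset.sum_range]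
    congr 1
    refine Finset.sum_congr rfl fun i _ => ?_
    rw [Polynomial.map_mul, Polynomial.map_pow, Polynomial.map_X, Polynomial.map_C]
    congr 2
    exact eval₂Hom_X' _ _ _
  haveI : Module.Finite (MvPolynomial (Fin d) k) (AdjoinRoot F₁) := hF₁.finite_adjoinRoot
  haveI : IsNoetherian (MvPolynomial (Fin d) k) (AdjoinRoot F₁) :=
    isNoetherian_of_isNoetherianRing_of_finite _ _
  obtain ⟨M, α, hα⟩ := exists_mem_span (A := MvPolynomial (Fin d) k)
    (fun w => (AdjoinRoot.root F₁) ^ Q ^ w)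
  refine ⟨M, fun i => φ (α i), ?_, ?_⟩
  · intro i
    refine eval₂_mem ⊤ (Inv (rn k a) ⊤) C _ ?_ ?_ (α i) (fun _ => Subring.mem_top _)
    · intro r _ g _
      exact rn_C k a g r
    · intro t
      exact FF_coeff k a t
  · intro s
    have h0 : F₁.eval₂ φ (X s) = 0 := by
      rw [← Polynomial.eval_map, hmap]
      unfold FF
      rw [Polynomial.eval_prod, Finset.prod_eq_zero (Finset.mem_univ s)]
      rw [Polynomial.eval_sub, Polynomial.eval_X, Polynomial.eval_C, sub_self]
    have h1 := congrArg (AdjoinRoot.lift φ (X s) h0) hα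
    rw [map_sum, map_pow, AdjoinRoot.lift_root] at h1
    rw [h1]
    refine Finset.sum_congr rfl fun i _ => ?_
    rw [Algebra.smul_def, map_mul, map_pow, AdjoinRoot.lift_root]
    congr 1
    exact AdjoinRoot.lift_of h0

theorem window (p : ℕ) [hp : Fact p.Prime] [CharP k p] (c : ℕ) {M : ℕ}
    {α : Fin M → MvPolynomial σ k} (hα : ∀ i, α i ∈ Inv (rn k a) ⊤)
    (hrel : ∀ s, (X s : MvPolynomial σ k) ^ (p ^ c) ^ M =
      ∑ i : Fin M, α i * X s ^ (p ^ c) ^ (i : ℕ)) (L K : ℕ) (hLK : L ≤ K) :
    ∃ γ : Fin M → MvPolynomial σ k, (∀ i, γ i ∈ Inv (rn k a) ⊤) ∧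
      ∀ s, (X s : MvPolynomial σ k) ^ (p ^ c) ^ K =
        ∑ i : Fin M, γ i * X s ^ (p ^ c) ^ (L + (i : ℕ)) := by
  classical
  induction K using Nat.strong_induction_on with
  | _ K ih =>
    by_cases hK : K < L + M
    · refine ⟨fun i => if L + (i : ℕ) = K then 1 else 0, fun i => ?_, fun s => ?_⟩
      · dsimp only
        split_ifs
        · exact one_mem _
        · exact zero_mem _
      · dsimp only
        rw [Finset.sum_eq_single (⟨K - L, by omega⟩ : Fin M)]
        · have h : L + (K - L) = K := by omega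
          simp only [h, if_true, one_mul]
        · intro i _ hi
          rw [if_neg, zero_mul]
          intro h
          apply hi
          apply Fin.ext
          change (i : ℕ) = K - L
          omega
        · intro h
          exact absurd (Finset.mem_univ _) h
    · obtain ⟨t, rfl⟩ : ∃ t, K = M + t := ⟨K - M, by omega⟩
      have h1 : ∀ i : Fin M, ∃ γ : Fin M → MvPolynomial σ k, (∀ i, γ i ∈ Inv (rn k a) ⊤) ∧
          ∀ s, (X s : MvPolynomial σ k) ^ (p ^ c) ^ ((i : ℕ) + t) =
            ∑ i : Fin M, γ i * X s ^ (p ^ c) ^ (L + (i : ℕ)) := by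
        intro i
        exact ih (i + t) (by have := i.2; omega) (by omega)
      choose γ hγ hγ2 using h1
      refine ⟨fun l => ∑ i, (α i) ^ (p ^ c) ^ t * γ i l, fun l => sum_mem fun i _ =>
        mul_mem (pow_mem (hα i) _) (hγ i l), fun s => ?_⟩
      rw [pow_add, pow_mul, hrel]
      have h2 : ∀ f : Fin M → MvPolynomial σ k, (∑ i, f i) ^ (p ^ c) ^ t =
          ∑ i, (f i) ^ (p ^ c) ^ t := by
        intro f
        rw [← pow_mul, sum_pow_char_pow]
      rw [h2]
      have h3 : ∀ i : Fin M, (α i * X s ^ (p ^ c) ^ (i : ℕ)) ^ (p ^ c) ^ t =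
          ∑ l : Fin M, α i ^ (p ^ c) ^ t * (γ i l * X s ^ (p ^ c) ^ (L + (l : ℕ))) := by
        intro i
        have h4 : (X s ^ (p ^ c) ^ (i : ℕ)) ^ (p ^ c) ^ t =
            (X s : MvPolynomial σ k) ^ (p ^ c) ^ ((i : ℕ) + t) := by
          rw [← pow_mul, ← pow_add]
        rw [mul_pow, h4, hγ2, Finset.mul_sum]
      rw [Finset.sum_congr rfl fun i _ => h3 i, Finset.sum_comm]
      refine Finset.sum_congr rfl fun l _ => ?_
      rw [Finset.sum_mul]
      refine Finset.sum_congr rfl fun i _ => ?_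
      rw [mul_assoc]

end Rel

end Pool.Agent.R793.PR
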