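import Pool.Agent.R793.PR.Setup

/-!
A uniform power of every vector invariant is a polynomial in invariants of bounded degree.
-/

set_option autoImplicit false

namespace Pool.Agent.R793.PR

open MvPolynomial

section Gen

variable (k : Type*) [Field k] {G : Type*} [Group G] {σ : Type*} (a : G →* Function.End σ)

theorem gen_X {m : ℕ} (e : Fin m ≃ σ) :
    Gen (rn k a) (fun i => (X (e i) : MvPolynomial σ k)) := by
  intro I g h r
  induction r using MvPolynomial.induction_on with
  | C c =>
    rw [rn_C, sub_self]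
    exact zero_mem _
  | add f₁ f₂ h₁ h₂ =>
    rw [map_add, add_sub_add_comm]
    exact add_mem h₁ h₂
  | mul_X f s hf =>
    rw [map_mul]
    have h1 : rn k a g f * rn k a g (X s) - f * X s =
      (rn k a g f - f) * rn k a g (X s) + f * (rn k a g (X s) - X s) := by ring
    rw [h1]
    refine add_mem (Ideal.mul_mem_right _ _ hf) (Ideal.mul_mem_left _ _ ?_)
    have h2 := h (e.symm s)
    simpa using h2

theorem exists_theta [Finite G] [Fintype σ] (p : ℕ) [hp : Fact p.Prime] [CharP k p] :
    ∃ (e : ℕ) (θ : σ → Subgroup G → MvPolynomial σ k), (∀ s H, θ s H ∈ DD (rn k a) H) ∧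
      ∀ s, (X s : MvPolynomial σ k) ^ p ^ e = ∑ H, θ s H := by
  classical
  have hg := gen_X k a (Fintype.equivFin σ).symm
  have h := fun s : σ => dec (rn k a) p hg (X s : MvPolynomial σ k)
  choose e c hc hs using h
  have hE : ∀ s, e s ≤ ∑ s, e s := fun s =>
    Finset.single_le_sum (fun _ _ => Nat.zero_le _) (Finset.mem_univ s)
  refine ⟨∑ s, e s, fun s H => (c s H) ^ p ^ ((∑ s, e s) - e s),
    fun s H => DD_pow _ (hc s H) (pow_pos hp.out.pos _), fun s => ?_⟩
  rw [← sum_pow_char_pow, ← hs, ← pow_mul, ← pow_add, Nat.add_sub_of_le (hE s)]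

end Gen

section MM

variable (k : Type*) [Field k] {G : Type*} [Group G] [Finite G] {σ : Type*}
  (a : G →* Function.End σ)

/-- The module of products. -/
noncomputable def MM (β D : ℕ) : Submodule k (MvPolynomial σ k) :=
  Submodule.span k {z | ∃ e ∈ EE k a β, ∃ v : Subgroup G → MvPolynomial σ k,
    (∀ H, v H ∈ Inv (rn k a) H ∧ (v H).totalDegree ≤ D) ∧ z = e * ∏ H, v H}

theorem MM_mul {β D : ℕ} {H : Subgroup G} {t : MvPolynomial σ k}
    (ht : ∀ h ∈ Inv (rn k a) H, h.totalDegree ≤ D → t * h ∈ NN k a H β D)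
    {z : MvPolynomial σ k} (hz : z ∈ MM k a β D) : t * z ∈ MM k a β D := by
  classical
  induction hz using Submodule.span_induction with
  | mem z hz =>
    obtain ⟨e, he, v, hv, rfl⟩ := hz
    have h1 := ht (v H) (hv H).1 (hv H).2
    have h2 : t * (e * ∏ H, v H) =
        (t * v H) * (e * ∏ H' ∈ Finset.univ.erase H, v H') := by
      rw [← Finset.mul_prod_erase _ _ (Finset.mem_univ H)]
      ring
    rw [h2]
    clear h2
    generalize t * v H = y at h1 ⊢
    induction h1 using Submodule.span_induction with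
    | mem y hy =>
      obtain ⟨e', he', w, hw, hd, rfl⟩ := hy
      refine Submodule.subset_span ⟨e' * e, mul_mem he' he, Function.update v H w, ?_, ?_⟩
      · intro H'
        by_cases h : H' = H
        · subst h
          rw [Function.update_self]
          exact ⟨hw, hd⟩
        · rw [Function.update_of_ne h]
          exact hv H'
      · have h3 : ∏ H' ∈ Finset.univ.erase H, Function.update v H w H' =
            ∏ H' ∈ Finset.univ.erase H, v H' :=
          Finset.prod_congr rfl
            (fun H' hH' => Function.update_of_ne (Finset.ne_of_mem_erase hH') _ _)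
        rw [← Finset.mul_prod_erase _ (Function.update v H w) (Finset.mem_univ H),
          Function.update_self, h3]
        ring
    | zero =>
      rw [zero_mul]
      exact zero_mem _
    | add x y _ _ hx hy =>
      rw [add_mul]
      exact add_mem hx hy
    | smul c x _ hx =>
      rw [smul_mul_assoc]
      exact Submodule.smul_mem _ _ hx
  | zero =>
    rw [mul_zero]
    exact zero_mem _
  | add x y _ _ hx hy =>
    rw [mul_add]
    exact add_mem hx hy
  | smul c x _ hx =>
    rw [mul_smul_comm]
    exact Submodule.smul_mem _ _ hx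

theorem pow_mem_MM [Fintype σ] (p : ℕ) [hp : Fact p.Prime] [CharP k p] :
    ∃ e β D : ℕ, ∀ (n : ℕ) (f : MvPolynomial (σ × Fin n) k),
      f ^ p ^ e ∈ MM k (cp a (Fin n)) β D := by
  classical
  obtain ⟨e, θ, hθ, hX⟩ := exists_theta k a p
  have hD := fun s H => conv_deg k a (hθ s H)
  choose D₁ hD₁ using hD
  have hle : ∀ s H, D₁ s H ≤ ∑ s, ∑ H, D₁ s H := fun s H =>
    (Finset.single_le_sum (f := fun H => D₁ s H) (fun _ _ => Nat.zero_le _)
      (Finset.mem_univ H)).trans
    (Finset.single_le_sum (f := fun s => ∑ H, D₁ s H) (fun _ _ => Nat.zero_le _)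
      (Finset.mem_univ s))
  generalize (∑ s, ∑ H, D₁ s H) = D at hle
  refine ⟨e, D + D, D, fun n f => ?_⟩
  have key : ∀ z ∈ MM k (cp a (Fin n)) (D + D) D,
      f ^ p ^ e * z ∈ MM k (cp a (Fin n)) (D + D) D := by
    induction f using MvPolynomial.induction_on with
    | C c =>
      intro z hz
      rw [← map_pow, ← smul_eq_C_mul]
      exact Submodule.smul_mem _ _ hz
    | add f₁ f₂ h₁ h₂ =>
      intro z hz
      rw [add_pow_char_pow, add_mul]
      exact add_mem (h₁ z hz) (h₂ z hz)
    | mul_X f v hf =>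
      intro z hz
      rw [mul_pow, mul_assoc]
      refine hf _ ?_
      obtain ⟨s, j⟩ := v
      have h1 : (X (s, j) : MvPolynomial (σ × Fin n) k) ^ p ^ e = ∑ H, io k j (θ s H) := by
        rw [← map_sum, ← hX, map_pow]
        have h2 : io k j (X s : MvPolynomial σ k) = X (s, j) := rename_X _ _
        rw [h2]
      rw [h1, Finset.sum_mul]
      refine sum_mem fun H _ => MM_mul k _ (H := H) (fun h hh hd => ?_) hz
      exact NN_mono k _ (by have := hle s H; omega) (hle s H) (hD₁ s H n j D h hh hd)
  have h1 : (1 : MvPolynomial (σ × Fin n) k) ∈ MM k (cp a (Fin n)) (D + D) D :=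
    Submodule.subset_span ⟨1, one_mem _, fun _ => 1, fun H => ⟨one_mem _, by
      rw [totalDegree_one]
      exact Nat.zero_le _⟩, by
      rw [Finset.prod_const_one, mul_one]⟩
  have h2 := key 1 h1
  rw [mul_one] at h2
  exact h2

theorem MM_rep {β D : ℕ} {z : MvPolynomial σ k} (hz : z ∈ MM k a β D) :
    ∃ (ι : Type) (_ : Fintype ι) (e w : ι → MvPolynomial σ k), (∀ i, e i ∈ EE k a β) ∧
      (∀ i, (w i).totalDegree ≤ Fintype.card (Subgroup G) * D) ∧ z = ∑ i, e i * w i := by
  classical
  induction hz using Submodule.span_induction with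
  | mem z hz =>
    obtain ⟨e, he, v, hv, rfl⟩ := hz
    refine ⟨Unit, inferInstance, fun _ => e, fun _ => ∏ H, v H, fun _ => he, fun _ => ?_, ?_⟩
    · refine (totalDegree_finset_prod _ _).trans ?_
      refine (Finset.sum_le_card_nsmul _ _ D fun H _ => (hv H).2).trans ?_
      rw [smul_eq_mul, Finset.card_univ]
    · exact (Fintype.sum_unique (fun _ : Unit => e * ∏ H, v H)).symm
  | zero =>
    refine ⟨Empty, inferInstance, fun _ => 0, fun _ => 0, fun _ => zero_mem _, fun i => i.elim,
      ?_⟩
    rw [Fintype.sum_empty]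
  | add x y _ _ hx hy =>
    obtain ⟨ι₁, i₁, e₁, w₁, he₁, hw₁, h₁⟩ := hx
    obtain ⟨ι₂, i₂, e₂, w₂, he₂, hw₂, h₂⟩ := hy
    refine ⟨ι₁ ⊕ ι₂, inferInstance, Sum.elim e₁ e₂, Sum.elim w₁ w₂, ?_, ?_, ?_⟩
    · rintro (i | i)
      · exact he₁ i
      · exact he₂ i
    · rintro (i | i)
      · exact hw₁ i
      · exact hw₂ i
    · rw [Fintype.sum_sum_type, h₁, h₂]
      rfl
  | smul c x _ hx =>
    obtain ⟨ι₁, i₁, e₁, w₁, he₁, hw₁, h₁⟩ := hx
    refine ⟨ι₁, i₁, fun i => c • e₁ i, w₁, fun i => Subalgebra.smul_mem _ (he₁ i) _, hw₁, ?_⟩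
    rw [h₁, Finset.smul_sum]
    refine Finset.sum_congr rfl fun i _ => ?_
    rw [smul_mul_assoc]

end MM

section Mv

variable {R : Type*} [CommRing R]

/-- The filtration on polynomials in several variables. -/
def mvFil (τ : Type*) (F : Fil R) : Fil (MvPolynomial τ R) where
  F n :=
    { carrier := {f | ∀ l, coeff l f ∈ F.F n}
      add_mem' := fun {f g} hf hg l => by
        rw [coeff_add]
        exact add_mem (hf l) (hg l)
      zero_mem' := fun l => by
        rw [coeff_zero]
        exact zero_mem _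
      neg_mem' := fun {f} hf l => by
        rw [coeff_neg]
        exact neg_mem (hf l) }
  mono h _ hf l := F.mono h (hf l)
  mul {m n f g} hf hg l := by
    classical
    rw [coeff_mul]
    exact sum_mem fun x _ => F.mul (hf _) (hg _)
  one l := by
    classical
    rw [coeff_one]
    split_ifs
    · exact F.one
    · exact zero_mem _

theorem Fil.prod_mem (F : Fil R) {ι : Type*} (s : Finset ι) (a : ι → R) (n : ℕ)
    (ha : ∀ i ∈ s, a i ∈ F.F n) : ∏ i ∈ s, a i ∈ F.F (s.card * n) := by
  classical
  induction s using Finset.induction_on with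
  | empty =>
    rw [Finset.prod_empty]
    exact F.mono (Nat.zero_le _) F.one
  | insert i s hi ih =>
    rw [Finset.prod_insert hi, Finset.card_insert_of_notMem hi, add_mul, one_mul, add_comm]
    exact F.mul (ha i (Finset.mem_insert_self _ _))
      (ih (fun i hi => ha i (Finset.mem_insert_of_mem hi)))

theorem eval₂_mem {S τ : Type*} [CommRing S] (A : Subring R) (B : Subring S) (φ : R →+* S)
    (x : τ → S) (hφ : ∀ r ∈ A, φ r ∈ B) (hx : ∀ t, x t ∈ B) (f : MvPolynomial τ R)
    (hf : ∀ m, coeff m f ∈ A) : eval₂Hom φ x f ∈ B := by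
  rw [coe_eval₂Hom, eval₂_eq]
  exact sum_mem fun d _ => mul_mem (hφ _ (hf d)) (prod_mem fun i _ => pow_mem (hx i) _)

open Polynomial in
/-- The polynomials with coefficients in a subring. -/
def cf (A : Subring R) : Subring R[X] where
  carrier := {q | ∀ n, q.coeff n ∈ A}
  mul_mem' hf hg n := by
    rw [Polynomial.coeff_mul]
    exact sum_mem fun x _ => mul_mem (hf _) (hg _)
  one_mem' n := by
    rw [Polynomial.coeff_one]
    split_ifs
    · exact one_mem _
    · exact zero_mem _
  add_mem' hf hg n := by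
    rw [Polynomial.coeff_add]
    exact add_mem (hf n) (hg n)
  zero_mem' n := by
    rw [Polynomial.coeff_zero]
    exact zero_mem _
  neg_mem' hf n := by
    rw [Polynomial.coeff_neg]
    exact neg_mem (hf n)

end Mv

section Norm

variable (k : Type*) [Field k] {G : Type*} [Group G] [Finite G] {σ : Type*}
  (a : G →* Function.End σ)

theorem pow_mem_EE (p : ℕ) [hp : Fact p.Prime] [CharP k p] {l t : ℕ}
    (hcard : Nat.card G = p ^ l * (t + 1)) (ht : ¬ p ∣ t + 1) {β D : ℕ}
    {u : MvPolynomial σ k} (hu : u ∈ Inv (rn k a) ⊤) (ι : Type) [Fintype ι]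
    (e w : ι → MvPolynomial σ k) (he : ∀ i, e i ∈ EE k a β) (hw : ∀ i, (w i).totalDegree ≤ D)
    (h : u = ∑ i, e i * w i) : u ^ p ^ l ∈ EE k a (max β (Nat.card G * D)) := by
  classical
  letI : Fintype G := Fintype.ofFinite G
  let ρ := rn k a
  let Φ : MvPolynomial (Option ι) (MvPolynomial σ k) :=
    ∏ g : G, (X none + ∑ i, X (some i) * C (ρ g (w i)))
  have hinv : ∀ m, coeff m Φ ∈ Inv ρ ⊤ := by
    intro m g₀ _
    rw [← coeff_map]
    congr 1
    change map (ρ g₀) (∏ g : G, (X none + ∑ i, X (some i) * C (ρ g (w i)))) =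
      ∏ g : G, (X none + ∑ i, X (some i) * C (ρ g (w i)))
    rw [map_prod]
    refine Fintype.prod_equiv (Equiv.mulLeft g₀) _ _ fun g => ?_
    rw [map_add, map_X, map_sum]
    congr 1
    refine Finset.sum_congr rfl fun i _ => ?_
    rw [map_mul, map_X, map_C, Equiv.coe_mulLeft, rho_mul]
  have hdeg : ∀ m, (coeff m Φ).totalDegree ≤ Nat.card G * D := by
    have h1 : Φ ∈ (mvFil (Option ι) (degFil k σ)).F ((Finset.univ : Finset G).card * D) := by
      refine Fil.prod_mem _ _ _ D fun g _ => add_mem ?_ (sum_mem fun i _ => ?_)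
      · intro m
        change (coeff m (X none : MvPolynomial (Option ι) (MvPolynomial σ k))).totalDegree ≤ D
        rw [coeff_X']
        split_ifs
        · rw [totalDegree_one]
          exact Nat.zero_le _
        · rw [totalDegree_zero]
          exact Nat.zero_le _
      · intro m
        change (coeff m (X (some i) * C (ρ g (w i)) :
          MvPolynomial (Option ι) (MvPolynomial σ k))).totalDegree ≤ D
        rw [mul_comm, coeff_C_mul, coeff_X']
        split_ifs
        · rw [mul_one]
          exact (rn_deg k a g _).trans (hw i)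
        · rw [mul_zero, totalDegree_zero]
          exact Nat.zero_le _
    rw [Nat.card_eq_fintype_card]
    exact h1
  have hEE : ∀ m, coeff m Φ ∈ (EE k a (max β (Nat.card G * D))).toSubring := fun m =>
    mem_EE k a (hinv m) ((hdeg m).trans (le_max_right _ _))
  let y : Option ι → Polynomial (MvPolynomial σ k) :=
    fun o => o.elim Polynomial.X (fun i => Polynomial.C (e i))
  have h1 : eval₂Hom Polynomial.C y Φ ∈ cf (EE k a (max β (Nat.card G * D))).toSubring := by
    refine eval₂_mem _ _ _ _ ?_ ?_ Φ hEE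
    · intro r hr n
      rw [Polynomial.coeff_C]
      split_ifs
      · exact hr
      · exact zero_mem _
    · rintro (_ | i) n
      · change Polynomial.X.coeff n ∈ _
        rw [Polynomial.coeff_X]
        split_ifs
        · exact one_mem _
        · exact zero_mem _
      · change (Polynomial.C (e i)).coeff n ∈ _
        rw [Polynomial.coeff_C]
        split_ifs
        · exact EE_mono k a (le_max_left _ _) (he i)
        · exact zero_mem _
  have h2 : eval₂Hom Polynomial.C y Φ = (Polynomial.X + Polynomial.C u) ^ (p ^ l * (t + 1)) := by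
    change eval₂Hom Polynomial.C y (∏ g : G, (X none + ∑ i, X (some i) * C (ρ g (w i)))) = _
    rw [_root_.map_prod, ← hcard, Nat.card_eq_fintype_card, ← Finset.card_univ,
      ← Finset.prod_const]
    refine Finset.prod_congr rfl fun g _ => ?_
    rw [_root_.map_add, eval₂Hom_X', _root_.map_sum]
    congr 1
    have h3 : u = ∑ i, e i * ρ g (w i) := by
      conv_lhs => rw [← hu g (Subgroup.mem_top g), h, _root_.map_sum]
      refine Finset.sum_congr rfl fun i _ => ?_
      rw [_root_.map_mul, EE_inv k a (he i) g (Subgroup.mem_top g)]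
    conv_rhs => rw [h3, _root_.map_sum]
    refine Finset.sum_congr rfl fun i _ => ?_
    rw [_root_.map_mul, eval₂Hom_X', eval₂Hom_C, _root_.map_mul]
    rfl
  have h3 := h1 (p ^ l * t)
  rw [h2, coeff_pow_X_add_C] at h3
  obtain ⟨c, hc⟩ := exists_inv_cast (R := MvPolynomial σ k) p ht
  have h4 : u ^ p ^ l = (c : MvPolynomial σ k) * (((t + 1 : ℕ) : MvPolynomial σ k) * u ^ p ^ l) := by
    rw [← mul_assoc, hc, one_mul]
  rw [h4]
  exact mul_mem (natCast_mem _ c) h3

/-- A uniform power of every vector invariant is a polynomial in invariants of bounded degree. -/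
theorem s1 [Fintype σ] (p : ℕ) [hp : Fact p.Prime] [CharP k p] :
    ∃ e β : ℕ, ∀ (n : ℕ) (f : MvPolynomial (σ × Fin n) k),
      f ∈ Inv (rn k (cp a (Fin n))) ⊤ → f ^ p ^ e ∈ EE k (cp a (Fin n)) β := by
  classical
  obtain ⟨l, m', hm', hcard⟩ := Nat.exists_eq_pow_mul_and_not_dvd
    (n := Nat.card G) Nat.card_pos.ne' p hp.out.ne_one
  obtain ⟨t, rfl⟩ : ∃ t, m' = t + 1 := by
    cases m' with
    | zero => exact absurd (dvd_zero p) hm'
    | succ t => exact ⟨t, rfl⟩
  obtain ⟨e, β, D, h⟩ := pow_mem_MM k a p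
  refine ⟨e + l, max β (Nat.card G * (Fintype.card (Subgroup G) * D)), fun n f hf => ?_⟩
  obtain ⟨ι, hι, e', w, he, hw, h2⟩ := MM_rep k _ (h n f)
  rw [pow_add, pow_mul]
  exact pow_mem_EE k _ p hcard hm' (pow_mem hf _) ι e' w he hw h2

end Norm

end Pool.Agent.R793.PR
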