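import Pool.Agent.R793.PR.Dec2

/-!
Permutation actions on polynomial rings and the degree bounds for the conversion identity.
-/

set_option autoImplicit false

namespace Pool.Agent.R793.PR

open MvPolynomial

section Ren

variable (k : Type*) [Field k] {G : Type*} [Group G] {σ : Type*} (a : G →* Function.End σ)

/-- The action on polynomials given by an action on the variables. -/
noncomputable def rn : G →* (MvPolynomial σ k →+* MvPolynomial σ k) where
  toFun g := (rename (a g) : MvPolynomial σ k →ₐ[k] MvPolynomial σ k).toRingHom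
  map_one' := by
    refine RingHom.ext fun f => ?_
    change rename (a 1) f = f
    rw [map_one]
    exact rename_id_apply f
  map_mul' g h := by
    refine RingHom.ext fun f => ?_
    change rename (a (g * h)) f = rename (a g) (rename (a h) f)
    rw [rename_rename, map_mul]
    rfl

theorem rn_apply (g : G) (f : MvPolynomial σ k) : rn k a g f = rename (a g) f := rfl

theorem rn_C (g : G) (c : k) : rn k a g (C c) = C c := rename_C _ _

theorem rn_X (g : G) (s : σ) : rn k a g (X s) = X (a g s) := rename_X _ _

theorem rn_smul (g : G) (c : k) (f : MvPolynomial σ k) : rn k a g (c • f) = c • rn k a g f :=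
  map_smul (rename (a g)) c f

/-- The action on several copies. -/
def cp (J : Type*) : G →* Function.End (σ × J) where
  toFun g := fun v => (a g v.1, v.2)
  map_one' := by
    funext v
    rw [map_one]
    rfl
  map_mul' g h := by
    funext v
    rw [map_mul]
    rfl

/-- The inclusion of a copy. -/
noncomputable def io {J : Type*} (j : J) : MvPolynomial σ k →ₐ[k] MvPolynomial (σ × J) k :=
  rename (fun s => (s, j))

theorem io_rn {J : Type*} (j : J) (g : G) (f : MvPolynomial σ k) :
    io k j (rn k a g f) = rn k (cp a J) g (io k j f) := by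
  change rename _ (rename _ f) = rename _ (rename _ f)
  rw [rename_rename, rename_rename]
  rfl

theorem io_mem {J : Type*} (j : J) {H : Subgroup G} {f : MvPolynomial σ k}
    (hf : f ∈ Inv (rn k a) H) : io k j f ∈ Inv (rn k (cp a J)) H := by
  intro g hg
  rw [← io_rn, hf g hg]

theorem io_deg {J : Type*} (j : J) (f : MvPolynomial σ k) :
    (io k j f).totalDegree ≤ f.totalDegree := totalDegree_rename_le _ _

theorem rn_deg (g : G) (f : MvPolynomial σ k) : (rn k a g f).totalDegree ≤ f.totalDegree :=
  totalDegree_rename_le _ _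

/-- The filtration by degree. -/
noncomputable def degFil (σ : Type*) : Fil (MvPolynomial σ k) where
  F n :=
    { carrier := {f | f.totalDegree ≤ n}
      add_mem' := fun {f g} hf hg => (totalDegree_add f g).trans (max_le hf hg)
      zero_mem' := by
        change (0 : MvPolynomial σ k).totalDegree ≤ n
        rw [totalDegree_zero]
        exact Nat.zero_le _
      neg_mem' := fun {f} hf => by
        change (-f).totalDegree ≤ n
        rw [totalDegree_neg]
        exact hf }
  mono h _ hf := hf.trans h
  mul {m n f g} hf hg := (totalDegree_mul f g).trans (Nat.add_le_add hf hg)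
  one := totalDegree_one.le

end Ren

section PolFil

variable {R : Type*} [CommRing R]

open Polynomial in
/-- The filtration on polynomials. -/
def polFil (F : Fil R) : Fil R[X] where
  F n :=
    { carrier := {f | ∀ l, f.coeff l ∈ F.F n}
      add_mem' := fun {f g} hf hg l => by
        rw [Polynomial.coeff_add]
        exact add_mem (hf l) (hg l)
      zero_mem' := fun l => by
        rw [Polynomial.coeff_zero]
        exact zero_mem _
      neg_mem' := fun {f} hf l => by
        rw [Polynomial.coeff_neg]
        exact neg_mem (hf l) }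
  mono h _ hf l := F.mono h (hf l)
  mul {m n f g} hf hg l := by
    rw [Polynomial.coeff_mul]
    exact sum_mem fun x _ => F.mul (hf _) (hg _)
  one l := by
    rw [Polynomial.coeff_one]
    split_ifs
    · exact F.one
    · exact zero_mem _

theorem Fil.pow (F : Fil R) {a : R} {n : ℕ} (ha : a ∈ F.F n) (l : ℕ) : a ^ l ∈ F.F (l * n) := by
  induction l with
  | zero =>
    rw [pow_zero, zero_mul]
    exact F.one
  | succ l ih =>
    rw [pow_succ, add_mul, one_mul]
    exact F.mul ih ha

theorem exists_polFil (k : Type*) [Field k] {σ : Type*} (b : Polynomial (MvPolynomial σ k)) :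
    ∃ n, b ∈ (polFil (degFil k σ)).F n := by
  classical
  refine ⟨b.support.sup (fun l => (b.coeff l).totalDegree), fun l => ?_⟩
  change (b.coeff l).totalDegree ≤ _
  by_cases hl : l ∈ b.support
  · exact Finset.le_sup (f := fun l => (b.coeff l).totalDegree) hl
  · rw [Polynomial.notMem_support_iff.mp hl, totalDegree_zero]
    exact Nat.zero_le _

end PolFil

section EE

variable (k : Type*) [Field k] {G : Type*} [Group G] [Finite G] {σ : Type*}
  (a : G →* Function.End σ)

/-- The algebra generated by the invariants of bounded degree. -/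
noncomputable def EE (β : ℕ) : Subalgebra k (MvPolynomial σ k) :=
  Algebra.adjoin k {f | f ∈ Inv (rn k a) ⊤ ∧ f.totalDegree ≤ β}

theorem EE_mono {β γ : ℕ} (h : β ≤ γ) : EE k a β ≤ EE k a γ :=
  Algebra.adjoin_mono fun _ hf => ⟨hf.1, hf.2.trans h⟩

theorem mem_EE {β : ℕ} {f : MvPolynomial σ k} (hf : f ∈ Inv (rn k a) ⊤)
    (hd : f.totalDegree ≤ β) : f ∈ EE k a β := Algebra.subset_adjoin ⟨hf, hd⟩

theorem EE_inv {β : ℕ} {f : MvPolynomial σ k} (hf : f ∈ EE k a β) : f ∈ Inv (rn k a) ⊤ := by
  induction hf using Algebra.adjoin_induction with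
  | mem x hx => exact hx.1
  | algebraMap c => exact fun g _ => rn_C k a g c
  | add x y _ _ hx hy => exact add_mem hx hy
  | mul x y _ _ hx hy => exact mul_mem hx hy

/-- The module generated by the invariants of bounded degree of a subgroup. -/
noncomputable def NN (H : Subgroup G) (β D : ℕ) : Submodule k (MvPolynomial σ k) :=
  Submodule.span k {z | ∃ e ∈ EE k a β, ∃ w ∈ Inv (rn k a) H, w.totalDegree ≤ D ∧ z = e * w}

theorem NN_mono {H : Subgroup G} {β γ D D' : ℕ} (h : β ≤ γ) (h' : D ≤ D') :
    NN k a H β D ≤ NN k a H γ D' :=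
  Submodule.span_mono fun _ ⟨e, he, w, hw, hd, hz⟩ => ⟨e, EE_mono k a h he, w, hw, hd.trans h', hz⟩

theorem conv_deg {H : Subgroup G} {θ : MvPolynomial σ k} (hθ : θ ∈ DD (rn k a) H) :
    ∃ D₁ : ℕ, ∀ (n : ℕ) (j : Fin n) (D : ℕ) (h : MvPolynomial (σ × Fin n) k),
      h ∈ Inv (rn k (cp a (Fin n))) H → h.totalDegree ≤ D →
      io k j θ * h ∈ NN k (cp a (Fin n)) H (D + D₁) D₁ := by
  induction hθ using AddSubgroup.closure_induction with
  | mem x hx =>
    obtain ⟨b, m, r, hb, hr, rfl⟩ := hx
    obtain ⟨N, hN⟩ := exists_polFil k b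
    refine ⟨r.totalDegree + Nat.card G * N, fun n j D h hh hd => ?_⟩
    let ρ := rn k (cp a (Fin n))
    let φ : MvPolynomial σ k →+* MvPolynomial (σ × Fin n) k := (io k j).toRingHom
    let bj : Polynomial (MvPolynomial (σ × Fin n) k) := b.map φ
    have hbj : bj ∈ Inv (pol ρ) H := by
      intro g hg
      rw [pol_apply]
      change (b.map _).map _ = b.map _
      rw [Polynomial.map_map]
      have h1 := hb g hg
      rw [pol_apply] at h1
      conv_rhs => rw [← h1, Polynomial.map_map]
      congr 1
      exact RingHom.ext fun f => (io_rn k a j g f).symm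
    have hbjN : bj ∈ (polFil (degFil k (σ × Fin n))).F N := by
      intro l
      change ((b.map φ).coeff l).totalDegree ≤ N
      rw [Polynomial.coeff_map]
      exact (io_deg k j _).trans (hN l)
    have hcs : ∀ ω : G ⧸ H, cs (pol ρ) H bj ω = (cs (pol (rn k a)) H b ω).map φ := by
      intro ω
      unfold cs
      rw [pol_apply, pol_apply]
      change (b.map _).map _ = _
      rw [Polynomial.map_map, Polynomial.map_map]
      congr 1
      exact RingHom.ext fun f => (io_rn k a j _ f).symm
    have hth : theta (pol ρ) H bj = (theta (pol (rn k a)) H b).map φ := by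
      unfold theta
      rw [Polynomial.map_prod]
      refine Finset.prod_congr rfl fun ω _ => ?_
      rw [hcs, Polynomial.map_sub]
    have hrh : io k j r * h ∈ Inv ρ H := mul_mem (io_mem k a j hr) hh
    have hC : Polynomial.C (io k j r * h) ∈ Inv (pol ρ) H := by
      intro g hg
      rw [pol_apply, Polynomial.map_C, hrh g hg]
    obtain ⟨M, c, hc, hsum, hdeg, hM⟩ := conv (pol ρ) hbj hC
    have hFil : ∀ (g : G) (n' : ℕ) (r : Polynomial (MvPolynomial (σ × Fin n) k)),
        r ∈ (polFil (degFil k (σ × Fin n))).F n' → pol ρ g r ∈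
          (polFil (degFil k (σ × Fin n))).F n' := by
      intro g n' r hr l
      rw [pol_apply, Polynomial.coeff_map]
      exact (rn_deg k _ g _).trans (hr l)
    have hCd : Polynomial.C (io k j r * h) ∈
        (polFil (degFil k (σ × Fin n))).F (r.totalDegree + D) := by
      intro l
      rw [Polynomial.coeff_C]
      split_ifs
      · exact (totalDegree_mul _ _).trans (Nat.add_le_add (io_deg k j r) hd)
      · exact zero_mem _
    have hcd := hdeg (polFil (degFil k (σ × Fin n))) (r.totalDegree + D) N hFil hbjN hCd
    have h2 := congrArg (fun q => q.coeff m) hsum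
    have h3 : io k j ((theta (pol (rn k a)) H b).coeff m * r) * h =
        ∑ l ∈ Finset.range M, ∑ x ∈ Finset.HasAntidiagonal.antidiagonal m,
          (c l).coeff x.1 * (bj ^ l).coeff x.2 := by
      have h4 : (Polynomial.C (io k j r * h) * theta (pol ρ) H bj).coeff m =
          ∑ l ∈ Finset.range M, ∑ x ∈ Finset.HasAntidiagonal.antidiagonal m,
          (c l).coeff x.1 * (bj ^ l).coeff x.2 := by
        rw [hsum, Polynomial.finset_sum_coeff]
        exact Finset.sum_congr rfl fun l _ => Polynomial.coeff_mul _ _ _
      rw [← h4, Polynomial.coeff_C_mul, hth, Polynomial.coeff_map, map_mul]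
      change io k j _ * io k j r * h = io k j r * h * io k j _
      ring
    rw [h3]
    refine sum_mem fun l hl => sum_mem fun x _ => Submodule.subset_span
      ⟨(c l).coeff x.1, ?_, (bj ^ l).coeff x.2, ?_, ?_, rfl⟩
    · refine mem_EE k _ (coeff_mem_Inv ρ (hc l) _) ?_
      refine (hcd l x.1).trans ?_
      change r.totalDegree + D + Nat.card G * N ≤ _
      omega
    · exact coeff_mem_Inv ρ (pow_mem hbj l) _
    · refine ((polFil (degFil k (σ × Fin n))).pow hbjN l x.2).trans ?_
      have h5 : l ≤ Nat.card G := ((Finset.mem_range.mp hl).le.trans hM)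
      have h6 : l * N ≤ Nat.card G * N := Nat.mul_le_mul_right _ h5
      omega
  | zero =>
    refine ⟨0, fun n j D h hh hd => ?_⟩
    rw [map_zero, zero_mul]
    exact zero_mem _
  | add x y _ _ hx hy =>
    obtain ⟨D₁, h1⟩ := hx
    obtain ⟨D₂, h2⟩ := hy
    refine ⟨D₁ + D₂, fun n j D h hh hd => ?_⟩
    rw [map_add, add_mul]
    exact add_mem (NN_mono k _ (by omega) (by omega) (h1 n j D h hh hd))
      (NN_mono k _ (by omega) (by omega) (h2 n j D h hh hd))
  | neg x _ hx =>
    obtain ⟨D₁, h1⟩ := hx
    refine ⟨D₁, fun n j D h hh hd => ?_⟩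
    rw [map_neg, neg_mul]
    exact neg_mem (h1 n j D h hh hd)

end EE

end Pool.Agent.R793.PR
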